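import Pool.Agent.H174.GP.StA

/-!
Project GP (helper174), part B1: the choice of the parameter.
-/

set_option autoImplicit false

open Finset

namespace Pool.Agent.H505.GP174.B1

open Pool.Agent.H174.GP

/-- one term of the sum -/
noncomputable def tm (σ : ℝ) (j : ℕ) : ℝ := 2 * j * (Real.exp (-(σ * j)) / (1 - Real.exp (-(σ * j))))

theorem exp_lt {σ : ℝ} (hσ : 0 < σ) {j : ℕ} (hj : 1 ≤ j) : Real.exp (-(σ * j)) < 1 := by
  rw [Real.exp_lt_one_iff]
  have : (0 : ℝ) < σ * j := mul_pos hσ (by exact_mod_cast hj)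
  linarith

theorem sum_eq {d : ℕ} {σ : ℝ} (hσ : 0 < σ) :
    2 * mu d σ + m1 d σ = ∑ j ∈ Finset.Icc 1 d, tm σ j := by
  rw [mu, m1, Finset.mul_sum, ← Finset.sum_add_distrib]
  apply Finset.sum_congr rfl
  intro j hj
  have hj1 := (Finset.mem_Icc.1 hj).1
  have h1 := exp_lt hσ hj1
  have h0 := Real.exp_pos (-(σ * j))
  have e : Real.exp (-(2 * σ * j)) = Real.exp (-(σ * j)) ^ 2 := by
    rw [← Real.exp_nat_mul]
    congr 1
    push_cast
    ring
  rw [tm, e]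
  generalize Real.exp (-(σ * j)) = ρ at *
  have h2 : 1 - ρ ^ 2 ≠ 0 := by nlinarith
  have h3 : 1 - ρ ≠ 0 := by linarith
  have h4 : 1 - ρ ^ 2 = (1 - ρ) * (1 + ρ) := by ring
  have h5 : 1 + ρ ≠ 0 := by linarith
  rw [h4]
  field_simp
  ring

theorem tm_le {σ : ℝ} (hσ : 0 < σ) {j : ℕ} (hj : 1 ≤ j) : tm σ j ≤ 2 / σ := by
  have h1 := exp_lt hσ hj
  have hj0 : (0 : ℝ) < j := by exact_mod_cast hj
  have h2 : (0 : ℝ) < σ * j := mul_pos hσ hj0
  have h3 : σ * j * Real.exp (-(σ * j)) ≤ 1 - Real.exp (-(σ * j)) := by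
    have h4 := Real.add_one_le_exp (σ * j)
    have h5 : (σ * j + 1) * Real.exp (-(σ * j)) ≤ Real.exp (σ * j) * Real.exp (-(σ * j)) :=
      mul_le_mul_of_nonneg_right h4 (Real.exp_pos _).le
    rw [← Real.exp_add, add_neg_cancel, Real.exp_zero] at h5
    linarith
  have h6 : 0 < 1 - Real.exp (-(σ * j)) := by linarith
  rw [tm, ← mul_div_assoc, div_le_div_iff₀ h6 hσ]
  nlinarith

theorem le_tm {σ : ℝ} (hσ : 0 < σ) {j : ℕ} (hj : 1 ≤ j) : 2 / σ * Real.exp (-(σ * j)) ≤ tm σ j := by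
  have h1 := exp_lt hσ hj
  have hj0 : (0 : ℝ) < j := by exact_mod_cast hj
  have h6 : 0 < 1 - Real.exp (-(σ * j)) := by linarith
  have h3 : 1 - Real.exp (-(σ * j)) ≤ σ * j := by
    have := Real.add_one_le_exp (-(σ * j))
    linarith
  have h0 := Real.exp_pos (-(σ * j))
  rw [tm, ← mul_div_assoc, div_mul_eq_mul_div, div_le_div_iff₀ hσ h6]
  have : Real.exp (-(σ * j)) * (1 - Real.exp (-(σ * j))) ≤ Real.exp (-(σ * j)) * (σ * j) :=
    mul_le_mul_of_nonneg_left h3 h0.le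
  nlinarith

theorem up {σ : ℝ} (hσ : 0 < σ) (d : ℕ) : ∑ j ∈ Finset.Icc 1 d, tm σ j ≤ 2 * d / σ := by
  have h : ∑ j ∈ Finset.Icc 1 d, tm σ j ≤ ∑ _j ∈ Finset.Icc 1 d, 2 / σ :=
    Finset.sum_le_sum fun j hj => tm_le hσ (Finset.mem_Icc.1 hj).1
  rw [Finset.sum_const, Nat.card_Icc, nsmul_eq_mul] at h
  have e : ((d + 1 - 1 : ℕ) : ℝ) * (2 / σ) = 2 * d / σ := by
    rw [Nat.add_sub_cancel]
    ring
  linarith

theorem low {σ : ℝ} (hσ : 0 < σ) (d : ℕ) :
    2 * d / σ * Real.exp (-(σ * d)) ≤ ∑ j ∈ Finset.Icc 1 d, tm σ j := by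
  have h : ∑ _j ∈ Finset.Icc 1 d, 2 / σ * Real.exp (-(σ * d)) ≤ ∑ j ∈ Finset.Icc 1 d, tm σ j := by
    apply Finset.sum_le_sum
    intro j hj
    obtain ⟨h1, h2⟩ := Finset.mem_Icc.1 hj
    refine le_trans ?_ (le_tm hσ h1)
    apply mul_le_mul_of_nonneg_left _ (by positivity)
    apply Real.exp_le_exp.2
    have : σ * (j : ℝ) ≤ σ * d := mul_le_mul_of_nonneg_left (by exact_mod_cast h2) hσ.le
    linarith
  rw [Finset.sum_const, Nat.card_Icc, nsmul_eq_mul] at h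
  have e : ((d + 1 - 1 : ℕ) : ℝ) * (2 / σ * Real.exp (-(σ * d))) =
      2 * d / σ * Real.exp (-(σ * d)) := by
    rw [Nat.add_sub_cancel]
    ring
  linarith

theorem cont (d : ℕ) : ContinuousOn (fun σ : ℝ => ∑ j ∈ Finset.Icc 1 d, tm σ j) (Set.Ioi 0) := by
  apply continuousOn_finsetSum
  intro j hj
  have hj1 := (Finset.mem_Icc.1 hj).1
  unfold tm
  have hc : Continuous fun σ : ℝ => Real.exp (-(σ * j)) := by fun_prop
  apply ContinuousOn.mul continuousOn_const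
  apply ContinuousOn.div hc.continuousOn (continuous_const.sub hc).continuousOn
  intro σ hσ
  have := exp_lt (Set.mem_Ioi.1 hσ) hj1
  show (1 : ℝ) - Real.exp (-(σ * j)) ≠ 0
  linarith

theorem gp_b1 : S_B1 := by
  intro c1 c2 hc1 hc12 hc2
  have hc20 : 0 < c2 := hc1.trans hc12
  have hc2s : c2 ^ 2 < 2 := by
    have h := mul_self_lt_mul_self hc20.le hc2
    rw [Real.mul_self_sqrt (by norm_num)] at h
    nlinarith
  refine ⟨min 1 (c1 ^ 2 / 3), lt_min one_pos (by positivity), 2 * c2 ^ 2 / (2 - c2 ^ 2),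
    div_pos (by positivity) (by linarith), ?_⟩
  intro n d hn hd h1 h2
  have hn0 : (0 : ℝ) < n := by exact_mod_cast hn
  have hd0 : (0 : ℝ) < d := by exact_mod_cast hd
  have hsq : Real.sqrt n ^ 2 = (n : ℝ) := Real.sq_sqrt hn0.le
  have hs0 : 0 < Real.sqrt n := Real.sqrt_pos.2 hn0
  have hdl : c1 ^ 2 * n ≤ (d : ℝ) ^ 2 := by
    have := mul_self_le_mul_self (by positivity) h1
    nlinarith
  have hdu : (d : ℝ) ^ 2 ≤ c2 ^ 2 * n := by
    have := mul_self_le_mul_self hd0.le h2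
    nlinarith
  set T : ℝ := 2 * n - (d : ℝ) ^ 2 with hT
  have hTl : (2 - c2 ^ 2) * n ≤ T := by rw [hT]; linarith
  have hT0 : 0 < T := lt_of_lt_of_le (mul_pos (by linarith) hn0) hTl
  have hTu : T ≤ 2 * n := by rw [hT]; nlinarith [sq_nonneg (d : ℝ)]
  set lo : ℝ := min (1 / d) (2 * d / (3 * T)) with hlo
  set hi : ℝ := 2 * d / T with hhi
  have hlo0 : 0 < lo := lt_min (by positivity) (by positivity)
  have hhi0 : 0 < hi := by positivity
  have hlohi : lo ≤ hi := by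
    refine (min_le_right _ _).trans ?_
    rw [hhi]
    apply div_le_div_of_nonneg_left (by positivity) hT0
    linarith
  have f1 : T ≤ ∑ j ∈ Finset.Icc 1 d, tm lo j := by
    refine le_trans ?_ (low hlo0 d)
    have e1 : lo * d ≤ 1 := by
      have : lo * d ≤ 1 / d * d := mul_le_mul_of_nonneg_right (min_le_left _ _) hd0.le
      rwa [one_div, inv_mul_cancel₀ hd0.ne'] at this
    have e2 : (1 : ℝ) / 3 ≤ Real.exp (-(lo * d)) := by
      have h3 : Real.exp (-1) ≤ Real.exp (-(lo * d)) := Real.exp_le_exp.2 (by linarith)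
      have h4 : (1 : ℝ) / 3 ≤ Real.exp (-1) := by
        rw [Real.exp_neg, ← one_div]
        apply div_le_div_of_nonneg_left (by norm_num) (Real.exp_pos 1)
        have := Real.exp_one_lt_d9
        linarith
      linarith
    have e3 : 3 * T ≤ 2 * d / lo := by
      rw [le_div_iff₀ hlo0]
      have h3 : 3 * T * lo ≤ 3 * T * (2 * d / (3 * T)) :=
        mul_le_mul_of_nonneg_left (min_le_right _ _) (by positivity)
      rwa [mul_div_cancel₀ _ (by positivity)] at h3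
    have e4 : 3 * T * (1 / 3) ≤ 2 * d / lo * Real.exp (-(lo * d)) :=
      mul_le_mul e3 e2 (by norm_num) (by positivity)
    linarith
  have f2 : ∑ j ∈ Finset.Icc 1 d, tm hi j ≤ T := by
    refine (up hhi0 d).trans (le_of_eq ?_)
    rw [hhi]
    field_simp
  have hcont : ContinuousOn (fun σ : ℝ => ∑ j ∈ Finset.Icc 1 d, tm σ j) (Set.Icc lo hi) :=
    (cont d).mono fun x hx => lt_of_lt_of_le hlo0 hx.1
  obtain ⟨σ, ⟨hσ1, hσ2⟩, hσ⟩ := intermediate_value_Icc' hlohi hcont (show T ∈ Set.Icc _ _ from ⟨f2, f1⟩)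
  have hσ0 : 0 < σ := lt_of_lt_of_le hlo0 hσ1
  refine ⟨σ, hσ0, ?_, ?_, ?_⟩
  · have := sum_eq (d := d) hσ0
    simp only at hσ
    rw [← this] at hσ
    linarith
  · have h3 : lo * d ≤ σ * d := mul_le_mul_of_nonneg_right hσ1 hd0.le
    refine le_trans ?_ h3
    rw [hlo, min_mul_of_nonneg _ _ hd0.le]
    apply min_le_min
    · rw [one_div, inv_mul_cancel₀ hd0.ne']
    · rw [div_mul_eq_mul_div, div_le_div_iff₀ (by norm_num) (by positivity)]
      nlinarith
  · have h3 : σ * d ≤ hi * d := mul_le_mul_of_nonneg_right hσ2 hd0.le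
    refine h3.trans ?_
    rw [hhi, div_mul_eq_mul_div, div_le_div_iff₀ hT0 (by linarith)]
    nlinarith

end Pool.Agent.H505.GP174.B1
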