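import Pool.Agent.H174.GP.StA
import Pool.Agent.H174.GP.StP
import Pool.Agent.H174.GP.StC

/-!
Project GP (helper174), part float: the rounding error.
-/

set_option autoImplicit false

open MeasureTheory Finset

namespace Pool.Agent.H505.GP174.FloatErr

open Pool.Agent.H174.GP

/-- the rounding error of one coordinate -/
noncomputable def er (σ : ℝ) (x j : ℕ) (y : ℝ) : ℝ :=
  ((min j x : ℕ) : ℝ) * ((Tq (σ * j) y : ℝ) - y / (σ * j))

theorem diff_eq (σ : ℝ) (hσ : 0 < σ) (ω : ℕ → ℝ) (L x : ℕ) :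
    Cg σ ω L x - Ch ω L x / σ = ∑ j ∈ Finset.Icc 1 L, er σ x j (ω j) := by
  rw [Cg, Ch, Cs, Cs, Finset.sum_div, ← Finset.sum_sub_distrib]
  apply Finset.sum_congr rfl
  intro j hj
  have hj0 : (j : ℝ) ≠ 0 := by
    have := (Finset.mem_Icc.1 hj).1
    positivity
  rw [er, geo]
  have := hσ.ne'
  field_simp

theorem one (h1 : S_Tq) (h2 : S_hoeff) (σ : ℝ) (L x : ℕ) (t : ℝ) (hσ : 0 < σ) (hL : 1 ≤ L)
    (hx : 1 ≤ x) (ht : 0 ≤ t) :
    PP.real {ω | x * Real.sqrt L * t ≤ |Cg σ ω L x - Ch ω L x / σ|} ≤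
      2 * Real.exp (-(t ^ 2 / 2)) := by
  have hL0 : (0 : ℝ) < L := by exact_mod_cast hL
  have hx0 : (0 : ℝ) < x := by exact_mod_cast hx
  have hpos : ∀ j ∈ Finset.Icc 1 L, 0 < σ * j := fun j hj =>
    mul_pos hσ (by exact_mod_cast (Finset.mem_Icc.1 hj).1)
  have h := h2 (Finset.Icc 1 L) (er σ x) (fun _ => (x : ℝ)) (L * (x : ℝ) ^ 2)
    (x * Real.sqrt L * t) ?_ ?_ ?_ ?_ ?_ ?_ ?_
  · have e1 : (x * Real.sqrt L * t) ^ 2 / (2 * (L * (x : ℝ) ^ 2)) = t ^ 2 / 2 := by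
      rw [mul_pow, mul_pow, Real.sq_sqrt hL0.le]
      field_simp
    rw [e1] at h
    simpa only [diff_eq σ hσ] using h
  · intro j hj
    have hm : Measurable fun y : ℝ => (Tq (σ * j) y : ℝ) :=
      (measurable_from_top (f := fun z : ℤ => (z : ℝ))).comp (h1 _ (hpos j hj)).2.2.2.1
    exact (hm.sub (measurable_id.div_const _)).const_mul _
  · intro j hj y
    rw [er, er, (h1 _ (hpos j hj)).2.1]
    push_cast
    ring
  · intro j _
    exact hx0.le
  · intro j hj y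
    rw [er, abs_mul, abs_of_nonneg (by positivity)]
    have e1 : ((min j x : ℕ) : ℝ) ≤ x := by exact_mod_cast min_le_right j x
    have e2 := (h1 _ (hpos j hj)).2.2.2.2 y
    calc ((min j x : ℕ) : ℝ) * |(Tq (σ * j) y : ℝ) - y / (σ * j)| ≤ x * 1 :=
          mul_le_mul e1 e2 (abs_nonneg _) hx0.le
      _ = x := mul_one _
  · positivity
  · rw [Finset.sum_const, Nat.card_Icc, Nat.add_sub_cancel, nsmul_eq_mul]
  · positivity

theorem gp_float (h1 : S_Tq) (h2 : S_hoeff) : S_float := by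
  intro σ L t hσ hL ht
  have e : {ω | ∃ x ∈ Finset.Icc 1 L, x * Real.sqrt L * t ≤ |Cg σ ω L x - Ch ω L x / σ|} =
      ⋃ x ∈ Finset.Icc 1 L, {ω | x * Real.sqrt L * t ≤ |Cg σ ω L x - Ch ω L x / σ|} := by
    ext ω
    simp only [Set.mem_ofPred_eq, Set.mem_iUnion, exists_prop]
  rw [e]
  refine (measureReal_biUnion_finset_le _ _).trans ?_
  refine (Finset.sum_le_sum fun x hx =>
    one h1 h2 σ L x t hσ hL (Finset.mem_Icc.1 hx).1 ht).trans ?_
  rw [Finset.sum_const, Nat.card_Icc, Nat.add_sub_cancel, nsmul_eq_mul]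
  apply le_of_eq
  ring

end Pool.Agent.H505.GP174.FloatErr
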