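import Pool.Agent.H174.GP.StA
import Pool.Agent.H174.GP.StP
import Pool.Agent.H174.GP.StC

/-!
Project GP (helper174), part theta: existence of the exponent.
-/

set_option autoImplicit false

open MeasureTheory Finset Filter Topology

namespace Pool.Agent.H505.GP174.ThetaEx

open Pool.Agent.H174.GP

theorem tendsto_of {g : ℕ → ℝ} (h0 : ∀ n, 0 ≤ g n)
    (h : ∀ ε : ℝ, 0 < ε → ε ≤ 1 → ∃ n0 : ℕ, ∀ n ≥ n0, ∀ δ : ℝ, 0 < δ →
      ∀ᶠ L in atTop, g L ≤ (1 + ε) * g n + ε + δ) :
    ∃ θ : ℝ, 0 ≤ θ ∧ Tendsto g atTop (𝓝 θ) := by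
  have hb : IsBoundedUnder (· ≥ ·) atTop g := ⟨0, by
    rw [eventually_map]
    exact Eventually.of_forall fun n => h0 n⟩
  have ha : IsBoundedUnder (· ≤ ·) atTop g := by
    obtain ⟨n0, hn0⟩ := h 1 one_pos le_rfl
    refine ⟨(1 + 1) * g n0 + 1 + 1, ?_⟩
    rw [eventually_map]
    exact hn0 n0 le_rfl 1 one_pos
  set θ := liminf g atTop with hθ
  have hθ0 : 0 ≤ θ := le_liminf_of_le ha.isCoboundedUnder_ge (Eventually.of_forall h0)
  have key : ∀ ε : ℝ, 0 < ε → ε ≤ 1 → limsup g atTop ≤ (1 + ε) * (θ + ε) + ε + ε := by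
    intro ε hε hε1
    obtain ⟨n0, hn0⟩ := h ε hε hε1
    have hf : ∃ᶠ n in atTop, g n < θ + ε :=
      frequently_lt_of_liminf_lt ha.isCoboundedUnder_ge (by linarith)
    obtain ⟨n, hn, hg⟩ := (frequently_atTop.1 hf) n0
    have h1 := hn0 n hn ε hε
    refine limsup_le_of_le hb.isCoboundedUnder_le (h1.mono fun L hL => hL.trans ?_)
    have h2 : (1 + ε) * g n ≤ (1 + ε) * (θ + ε) :=
      mul_le_mul_of_nonneg_left hg.le (by linarith)
    linarith
  have hle : limsup g atTop ≤ θ := by
    apply le_of_forall_pos_le_add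
    intro η hη
    have h1 : 0 < min 1 (η / (θ + 5)) := lt_min one_pos (div_pos hη (by linarith))
    have h2 := key _ h1 (min_le_left _ _)
    have h3 : min 1 (η / (θ + 5)) * (θ + 5) ≤ η := by
      have : min 1 (η / (θ + 5)) * (θ + 5) ≤ η / (θ + 5) * (θ + 5) :=
        mul_le_mul_of_nonneg_right (min_le_right _ _) (by linarith)
      rwa [div_mul_cancel₀ _ (by linarith)] at this
    have h4 : min 1 (η / (θ + 5)) ≤ 1 := min_le_left _ _
    generalize min 1 (η / (θ + 5)) = e at *
    nlinarith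
  exact ⟨θ, hθ0, tendsto_of_le_liminf_of_limsup_le le_rfl hle ha hb⟩

theorem gp_theta (h1 : S_super) (h2 : S_step) : S_theta := by
  obtain ⟨c, hc, κ, hκ, hA, _, _, hB, hle1⟩ := h2
  have hpos : ∀ L : ℕ, 1 ≤ L → 0 < uu L := by
    intro L hL
    have hL0 : (0 : ℝ) < L := by exact_mod_cast hL
    exact lt_of_lt_of_le (mul_pos hc (Real.rpow_pos_of_pos hL0 _)) (hB L hL)
  have hnn : ∀ L : ℕ, 0 ≤ uu L := fun L => measureReal_nonneg
  have hf0 : ∀ L : ℕ, 0 ≤ -Real.log (uu L) := fun L => by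
    have := Real.log_nonpos (hnn L) (hle1 L)
    linarith
  have hl0 : ∀ L : ℕ, 0 ≤ Real.log L := fun L => Real.log_natCast_nonneg L
  apply tendsto_of (g := fun L : ℕ => -Real.log (uu L) / Real.log L)
  · intro n
    exact div_nonneg (hf0 n) (hl0 n)
  intro ε hε hε1
  obtain ⟨n0, hn02, hn0⟩ := h1 ε hε hε1
  refine ⟨n0, fun n hn δ hδ => ?_⟩
  have hn2 : 2 ≤ n := hn02.trans hn
  have hnpos : (0 : ℝ) < n := by
    have : 0 < n := by omega
    exact_mod_cast this
  have hlogn : 0 < Real.log n := Real.log_pos (by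
    have : 1 < n := by omega
    exact_mod_cast this)
  set D : ℝ := (1 + ε) * (-Real.log (uu n)) + ε * Real.log n with hD
  have hD0 : 0 ≤ D := by
    have h3 : 0 ≤ (1 + ε) * (-Real.log (uu n)) := mul_nonneg (by linarith) (hf0 n)
    have h4 : 0 ≤ ε * Real.log n := by positivity
    linarith
  have hpow : ∀ m : ℕ, -Real.log (uu (n ^ m)) ≤ -Real.log (uu 1) + m * D := by
    intro m
    induction m with
    | zero => simp
    | succ m ih =>
      have h3 := hn0 n hn (n ^ m) (Nat.one_le_pow _ _ (by omega))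
      have hu1 := hpos (n ^ m) (Nat.one_le_pow _ _ (by omega))
      have hu2 := hpos n (by omega)
      have h4 : Real.log (uu (n ^ m) * uu n ^ (1 + ε) * (n : ℝ) ^ (-ε)) ≤
          Real.log (uu (n ^ m * n)) := Real.log_le_log (by positivity) h3
      rw [Real.log_mul (by positivity) (by positivity), Real.log_mul (by positivity) (by positivity),
        Real.log_rpow hu2, Real.log_rpow hnpos] at h4
      rw [pow_succ]
      push_cast
      rw [hD]
      linarith
  set C0 : ℝ := -Real.log (uu 1) + κ * Real.log n - Real.log c with hC0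
  have hlim : Tendsto (fun L : ℕ => C0 / Real.log L) atTop (𝓝 0) :=
    (Real.tendsto_log_atTop.comp tendsto_natCast_atTop_atTop).const_div_atTop C0
  filter_upwards [hlim.eventually (gt_mem_nhds hδ), eventually_ge_atTop 2] with L hL1 hL2
  have hLpos : (0 : ℝ) < L := by
    have : 0 < L := by omega
    exact_mod_cast this
  have hlogL : 0 < Real.log L := Real.log_pos (by
    have : 1 < L := by omega
    exact_mod_cast this)
  set m := Nat.log n L with hm
  have hm1 : n ^ m ≤ L := Nat.pow_log_le_self n (by omega)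
  have hm2 : L < n ^ (m + 1) := Nat.lt_pow_succ_log_self (by omega) L
  have hK1 : 1 ≤ n ^ m := Nat.one_le_pow _ _ (by omega)
  have hKpos : (0 : ℝ) < ((n ^ m : ℕ) : ℝ) := by exact_mod_cast hK1
  have h3 := hA (n ^ m) L hK1 hm1
  have h4 : Real.log (c * uu (n ^ m) * (((n ^ m : ℕ) : ℝ) / L) ^ κ) ≤ Real.log (uu L) :=
    Real.log_le_log (mul_pos (mul_pos hc (hpos _ hK1)) (Real.rpow_pos_of_pos
      (div_pos hKpos hLpos) _)) h3
  rw [Real.log_mul (mul_pos hc (hpos _ hK1)).ne' (Real.rpow_pos_of_pos (div_pos hKpos hLpos) _).ne',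
    Real.log_mul hc.ne' (hpos _ hK1).ne', Real.log_rpow (div_pos hKpos hLpos),
    Real.log_div hKpos.ne' hLpos.ne'] at h4
  have h5 : Real.log ((n ^ m : ℕ) : ℝ) = m * Real.log n := by
    push_cast
    rw [Real.log_pow]
  have h6 : Real.log L ≤ (m + 1) * Real.log n := by
    have : Real.log L ≤ Real.log ((n ^ (m + 1) : ℕ) : ℝ) :=
      Real.log_le_log hLpos (by exact_mod_cast hm2.le)
    rw [Nat.cast_pow, Real.log_pow] at this
    push_cast at this
    exact this
  have h7 : m * Real.log n ≤ Real.log L := by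
    rw [← h5]
    exact Real.log_le_log hKpos (by exact_mod_cast hm1)
  have h8 : -Real.log (uu L) ≤ C0 + m * D := by
    have h9 := hpow m
    have h10 : κ * (Real.log L - m * Real.log n) ≤ κ * Real.log n :=
      mul_le_mul_of_nonneg_left (by linarith) hκ.le
    rw [h5] at h4
    rw [hC0]
    linarith
  have h9 : m * D / Real.log L ≤ D / Real.log n := by
    rw [div_le_div_iff₀ hlogL hlogn]
    have := mul_le_mul_of_nonneg_right h7 hD0
    linarith
  have h10 : D / Real.log n = (1 + ε) * (-Real.log (uu n) / Real.log n) + ε := by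
    rw [hD]
    field_simp
  have h11 : -Real.log (uu L) / Real.log L ≤ C0 / Real.log L + m * D / Real.log L := by
    rw [← add_div]
    exact div_le_div_of_nonneg_right h8 hlogL.le
  rw [← h10]
  linarith

end Pool.Agent.H505.GP174.ThetaEx
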