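import Pool.Agent.H174.GP.StD
import Pool.Agent.H505.GP174.B1

/-!
Project GP (helper174), second part, B1r: the choice of the parameter for every `N`.
-/

set_option autoImplicit false

open Finset

namespace Pool.Agent.H505.GP174.B1r

open Pool.Agent.H174.GP Pool.Agent.H505.GP174.B1

theorem mu_half (d : ℕ) (σ : ℝ) : 2 * mu d (σ / 2) = ∑ j ∈ Finset.Icc 1 d, tm σ j := by
  rw [mu, Finset.mul_sum]
  apply Finset.sum_congr rfl
  intro j _
  have e : -(2 * (σ / 2) * (j : ℝ)) = -(σ * j) := by ring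
  rw [tm, e]
  ring

theorem gp_b1r : S_B1r := by
  intro c1 c2 hc1 hc12 hc2
  have hc20 : 0 < c2 := hc1.trans hc12
  have hc2s : c2 ^ 2 < 1 := by nlinarith
  refine ⟨min 1 (2 * c1 ^ 2 / 3), lt_min one_pos (by positivity), 2 * c2 ^ 2 / (1 - c2 ^ 2),
    div_pos (by positivity) (by linarith), ?_⟩
  intro n d hn hd h1 h2
  have hn0 : (0 : ℝ) < n := by exact_mod_cast hn
  have hd0 : (0 : ℝ) < d := by exact_mod_cast hd
  have hsq : Real.sqrt n ^ 2 = (n : ℝ) := Real.sq_sqrt hn0.le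
  have hs0 : 0 < Real.sqrt n := Real.sqrt_pos.2 hn0
  have hdl : c1 ^ 2 * n ≤ (d : ℝ) ^ 2 := by
    have := mul_self_le_mul_self (by positivity) h1
    nlinarith
  have hdu : (d : ℝ) ^ 2 ≤ c2 ^ 2 * n := by
    have := mul_self_le_mul_self hd0.le h2
    nlinarith
  set T : ℝ := n - (d : ℝ) ^ 2 with hT
  have hTl : (1 - c2 ^ 2) * n ≤ T := by rw [hT]; linarith
  have hT0 : 0 < T := lt_of_lt_of_le (mul_pos (by linarith) hn0) hTl
  have hTu : T ≤ n := by rw [hT]; nlinarith [sq_nonneg (d : ℝ)]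
  set lo : ℝ := min (1 / d) (2 * d / (3 * T)) with hlo
  set hi : ℝ := 2 * d / T with hhi
  have hlo0 : 0 < lo := lt_min (by positivity) (by positivity)
  have hhi0 : 0 < hi := by positivity
  have hlohi : lo ≤ hi := by
    refine (min_le_right _ _).trans ?_
    rw [hhi]
    apply div_le_div_of_nonneg_left (by positivity) hT0
    linarith
  have f1 : T ≤ ∑ j ∈ Finset.Icc 1 d, tm lo j := by
    refine le_trans ?_ (low hlo0 d)
    have e1 : lo * d ≤ 1 := by
      have : lo * d ≤ 1 / d * d := mul_le_mul_of_nonneg_right (min_le_left _ _) hd0.le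
      rwa [one_div, inv_mul_cancel₀ hd0.ne'] at this
    have e2 : (1 : ℝ) / 3 ≤ Real.exp (-(lo * d)) := by
      have h3 : Real.exp (-1) ≤ Real.exp (-(lo * d)) := Real.exp_le_exp.2 (by linarith)
      have h4 : (1 : ℝ) / 3 ≤ Real.exp (-1) := by
        rw [Real.exp_neg, ← one_div]
        apply div_le_div_of_nonneg_left (by norm_num) (Real.exp_pos 1)
        have := Real.exp_one_lt_d9
        linarith
      linarith
    have e3 : 3 * T ≤ 2 * d / lo := by
      rw [le_div_iff₀ hlo0]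
      have h3 : 3 * T * lo ≤ 3 * T * (2 * d / (3 * T)) :=
        mul_le_mul_of_nonneg_left (min_le_right _ _) (by positivity)
      rwa [mul_div_cancel₀ _ (by positivity)] at h3
    have e4 : 3 * T * (1 / 3) ≤ 2 * d / lo * Real.exp (-(lo * d)) :=
      mul_le_mul e3 e2 (by norm_num) (by positivity)
    linarith
  have f2 : ∑ j ∈ Finset.Icc 1 d, tm hi j ≤ T := by
    refine (up hhi0 d).trans (le_of_eq ?_)
    rw [hhi]
    field_simp
  have hcont : ContinuousOn (fun σ : ℝ => ∑ j ∈ Finset.Icc 1 d, tm σ j) (Set.Icc lo hi) :=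
    (cont d).mono fun x hx => lt_of_lt_of_le hlo0 hx.1
  obtain ⟨σ, ⟨hσ1, hσ2⟩, hσ⟩ := intermediate_value_Icc' hlohi hcont (show T ∈ Set.Icc _ _ from ⟨f2, f1⟩)
  have hσ0 : 0 < σ := lt_of_lt_of_le hlo0 hσ1
  refine ⟨σ, hσ0, ?_, ?_, ?_⟩
  · rw [mu_half]
    simp only at hσ
    rw [hσ, hT]
    ring
  · have h3 : lo * d ≤ σ * d := mul_le_mul_of_nonneg_right hσ1 hd0.le
    refine le_trans ?_ h3
    rw [hlo, min_mul_of_nonneg _ _ hd0.le]
    apply min_le_min
    · rw [one_div, inv_mul_cancel₀ hd0.ne']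
    · rw [div_mul_eq_mul_div, div_le_div_iff₀ (by norm_num) (by positivity)]
      nlinarith
  · have h3 : σ * d ≤ hi * d := mul_le_mul_of_nonneg_right hσ2 hd0.le
    refine h3.trans ?_
    rw [hhi, div_mul_eq_mul_div, div_le_div_iff₀ hT0 (by linarith)]
    nlinarith

end Pool.Agent.H505.GP174.B1r
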