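import Pool.Agent.H174.GP.StA
import Pool.Agent.H174.GP.StD
import Pool.Agent.H505.GP174.B1
import Pool.Agent.H505.GP174.B1r

/-!
Project GP (helper174), second part, Con: concentration of the Durfee size.

For the parameter `σ = log 2 / d0` the bound `PB N σ d` of `cnt d N` is largest at `d = d0` and decreases like
`exp(-σ k (k-1))` for `d = d0 ± k`. The number `d0` is the largest one with `d0² + 2 mu d0 (σ/2) ≤ N`.
-/

set_option autoImplicit false

open Finset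

namespace Pool.Agent.H505.GP174.Conc

open Pool.Agent.H174.GP Pool.Agent.H505.GP174.B1 Pool.Agent.H505.GP174.B1r

/-- the upper bound of `cnt` -/
noncomputable def PB (N σ : ℝ) (d : ℕ) : ℝ :=
  Real.exp (σ * (N - (d : ℝ) ^ 2)) * ∏ j ∈ Finset.Icc 1 d, (1 / (1 - Real.exp (-(σ * j)))) ^ 2

theorem PB_succ (N σ : ℝ) (d : ℕ) :
    PB N σ (d + 1) = PB N σ d *
      (Real.exp (-(σ * (2 * d + 1))) * (1 / (1 - Real.exp (-(σ * (d + 1))))) ^ 2) := by
  rw [PB, PB, Finset.prod_Icc_succ_top (by omega)]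
  have e : Real.exp (σ * (N - ((d + 1 : ℕ) : ℝ) ^ 2)) =
      Real.exp (σ * (N - (d : ℝ) ^ 2)) * Real.exp (-(σ * (2 * d + 1))) := by
    rw [← Real.exp_add]
    congr 1
    push_cast
    ring
  rw [e]
  push_cast
  ring

theorem PB_pos {N σ : ℝ} (hσ : 0 < σ) (d : ℕ) : 0 < PB N σ d := by
  rw [PB]
  apply mul_pos (Real.exp_pos _)
  apply Finset.prod_pos
  intro j hj
  have h := exp_lt hσ (Finset.mem_Icc.1 hj).1
  have h' : 0 < 1 - Real.exp (-(σ * j)) := by linarith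
  positivity

section
variable {N σ : ℝ} {d0 : ℕ} (hσ : 0 < σ) (h2 : Real.exp (-(σ * d0)) = 1 / 2)
include hσ h2

theorem PB_up (k : ℕ) : PB N σ (d0 + k) ≤ PB N σ d0 * Real.exp (-(σ * (k * (k - 1)))) := by
  induction k with
  | zero => simp
  | succ k ih =>
    have e1 : PB N σ (d0 + (k + 1)) = PB N σ (d0 + k) *
        (Real.exp (-(σ * (2 * ((d0 + k : ℕ) : ℝ) + 1))) *
          (1 / (1 - Real.exp (-(σ * (((d0 + k : ℕ) : ℝ) + 1))))) ^ 2) := PB_succ N σ (d0 + k)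
    rw [e1]
    push_cast
    have hk : (0 : ℝ) ≤ k := Nat.cast_nonneg k
    have a1 : Real.exp (-(σ * (2 * ((d0 : ℝ) + k) + 1))) ≤ 1 / 4 * Real.exp (-(2 * σ * k)) := by
      have e2 : Real.exp (-(σ * (2 * ((d0 : ℝ) + k) + 1))) =
          Real.exp (-(σ * d0)) * Real.exp (-(σ * d0)) * Real.exp (-(2 * σ * k)) * Real.exp (-σ) := by
        rw [← Real.exp_add, ← Real.exp_add, ← Real.exp_add]
        congr 1
        ring
      have e3 : Real.exp (-σ) ≤ 1 := by
        rw [Real.exp_le_one_iff]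
        linarith
      rw [e2, h2]
      have := Real.exp_pos (-(2 * σ * k))
      nlinarith
    have a2 : Real.exp (-(σ * ((d0 : ℝ) + k + 1))) ≤ 1 / 2 := by
      rw [← h2]
      apply Real.exp_le_exp.2
      nlinarith
    have a3 : (1 / (1 - Real.exp (-(σ * ((d0 : ℝ) + k + 1))))) ^ 2 ≤ 4 := by
      have h3 : 1 / (1 - Real.exp (-(σ * ((d0 : ℝ) + k + 1)))) ≤ 2 := by
        rw [div_le_iff₀ (by linarith)]
        linarith
      have h4 : 0 ≤ 1 / (1 - Real.exp (-(σ * ((d0 : ℝ) + k + 1)))) := by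
        apply div_nonneg zero_le_one
        linarith
      nlinarith
    have a4 : Real.exp (-(σ * (2 * ((d0 : ℝ) + k) + 1))) *
        (1 / (1 - Real.exp (-(σ * ((d0 : ℝ) + k + 1))))) ^ 2 ≤ Real.exp (-(2 * σ * k)) := by
      calc Real.exp (-(σ * (2 * ((d0 : ℝ) + k) + 1))) *
            (1 / (1 - Real.exp (-(σ * ((d0 : ℝ) + k + 1))))) ^ 2
          ≤ (1 / 4 * Real.exp (-(2 * σ * k))) * 4 :=
            mul_le_mul a1 a3 (by positivity) (by positivity)
        _ = Real.exp (-(2 * σ * k)) := by ring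
    have e5 : PB N σ d0 * Real.exp (-(σ * (((k : ℝ) + 1) * ((k : ℝ) + 1 - 1)))) =
        (PB N σ d0 * Real.exp (-(σ * (k * (k - 1))))) * Real.exp (-(2 * σ * k)) := by
      rw [mul_assoc, ← Real.exp_add]
      congr 2
      ring
    rw [e5]
    exact mul_le_mul ih a4 (by positivity) (mul_nonneg (PB_pos hσ d0).le (Real.exp_pos _).le)

theorem PB_down (k : ℕ) (hk : k ≤ d0) :
    PB N σ (d0 - k) ≤ PB N σ d0 * Real.exp (-(σ * (k * (k - 1)))) := by
  induction k with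
  | zero => simp
  | succ k ih =>
    have ih' := ih (by omega)
    obtain ⟨d, hd⟩ : ∃ d, d0 = d + (k + 1) := ⟨d0 - (k + 1), by omega⟩
    have e0 : d0 - (k + 1) = d := by omega
    have e0' : d0 - k = d + 1 := by omega
    rw [e0' , PB_succ] at ih'
    rw [e0]
    have hkR : (0 : ℝ) ≤ k := Nat.cast_nonneg k
    have hdR : (d0 : ℝ) = d + (k + 1) := by rw [hd]; push_cast; ring
    have a1 : 1 / 4 * Real.exp (2 * σ * k) ≤ Real.exp (-(σ * (2 * (d : ℝ) + 1))) := by
      have e2 : Real.exp (-(σ * (2 * (d : ℝ) + 1))) =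
          Real.exp (-(σ * d0)) * Real.exp (-(σ * d0)) * Real.exp (2 * σ * k) * Real.exp σ := by
        rw [← Real.exp_add, ← Real.exp_add, ← Real.exp_add]
        congr 1
        rw [hdR]
        ring
      have e3 : 1 ≤ Real.exp σ := Real.one_le_exp hσ.le
      rw [e2, h2]
      have := Real.exp_pos (2 * σ * k)
      nlinarith
    have a2 : 1 / 2 ≤ Real.exp (-(σ * ((d : ℝ) + 1))) := by
      rw [← h2]
      apply Real.exp_le_exp.2
      rw [hdR]
      nlinarith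
    have a0 : Real.exp (-(σ * ((d : ℝ) + 1))) < 1 := by
      have := exp_lt hσ (show 1 ≤ d + 1 by omega)
      push_cast at this
      exact this
    have a3 : 4 ≤ (1 / (1 - Real.exp (-(σ * ((d : ℝ) + 1))))) ^ 2 := by
      have h3 : 2 ≤ 1 / (1 - Real.exp (-(σ * ((d : ℝ) + 1)))) := by
        rw [le_div_iff₀ (by linarith)]
        linarith
      nlinarith
    have a4 : Real.exp (2 * σ * k) ≤ Real.exp (-(σ * (2 * (d : ℝ) + 1))) *
        (1 / (1 - Real.exp (-(σ * ((d : ℝ) + 1))))) ^ 2 := by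
      calc Real.exp (2 * σ * k) = (1 / 4 * Real.exp (2 * σ * k)) * 4 := by ring
        _ ≤ _ := mul_le_mul a1 a3 (by norm_num) (Real.exp_pos _).le
    have a5 : PB N σ d * Real.exp (2 * σ * k) ≤ PB N σ d0 * Real.exp (-(σ * (k * (k - 1)))) :=
      (mul_le_mul_of_nonneg_left a4 (PB_pos hσ d).le).trans ih'
    have e5 : PB N σ d0 * Real.exp (-(σ * (((k + 1 : ℕ) : ℝ) * (((k + 1 : ℕ) : ℝ) - 1)))) =
        (PB N σ d0 * Real.exp (-(σ * (k * (k - 1))))) * Real.exp (-(2 * σ * k)) := by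
      rw [mul_assoc, ← Real.exp_add]
      congr 2
      push_cast
      ring
    rw [e5]
    have a6 := mul_le_mul_of_nonneg_right a5 (Real.exp_pos (-(2 * σ * k))).le
    have e6 : PB N σ d * Real.exp (2 * σ * k) * Real.exp (-(2 * σ * k)) = PB N σ d := by
      rw [mul_assoc, ← Real.exp_add]
      simp
    rw [e6] at a6
    exact a6

theorem PB_far (d : ℕ) :
    PB N σ d ≤ PB N σ d0 * Real.exp (-(σ * (|(d : ℝ) - d0| * (|(d : ℝ) - d0| - 1)))) := by
  rcases le_total d0 d with h | h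
  · obtain ⟨k, rfl⟩ := Nat.exists_eq_add_of_le h
    have e : |((d0 + k : ℕ) : ℝ) - d0| = k := by
      push_cast
      rw [add_sub_cancel_left, abs_of_nonneg (Nat.cast_nonneg k)]
    rw [e]
    exact PB_up hσ h2 k
  · have h3 := PB_down (N := N) hσ h2 (d0 - d) (Nat.sub_le _ _)
    have e0 : d0 - (d0 - d) = d := by omega
    have e : |(d : ℝ) - d0| = ((d0 - d : ℕ) : ℝ) := by
      rw [Nat.cast_sub h, abs_sub_comm, abs_of_nonneg]
      have : (d : ℝ) ≤ d0 := by exact_mod_cast h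
      linarith
    rw [e0] at h3
    rw [e]
    exact h3

end

/-! ### The choice of `d0` -/

/-- the parameter -/
noncomputable def sg2 (d : ℕ) : ℝ := Real.log 2 / d

noncomputable def HH (d : ℕ) : ℝ := (d : ℝ) ^ 2 + ∑ j ∈ Finset.Icc 1 d, tm (sg2 d) j

theorem sg2_pos {d : ℕ} (hd : 1 ≤ d) : 0 < sg2 d := by
  have : (0 : ℝ) < d := by exact_mod_cast hd
  exact div_pos (Real.log_pos (by norm_num)) this

theorem tm_up {σ σ' : ℝ} (hσ' : 0 < σ') (h : σ' ≤ σ) {j : ℕ} (hj : 1 ≤ j) (hb : 1 / 2 ≤ Real.exp (-(σ * j))) :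
    tm σ' j - tm σ j ≤ 4 * (σ - σ') / (σ * σ') := by
  have hσ : 0 < σ := lt_of_lt_of_le hσ' h
  have ha := exp_lt hσ' hj
  have hb1 := exp_lt hσ hj
  have hj0 : (0 : ℝ) < j := by exact_mod_cast hj
  have ha0 := Real.exp_pos (-(σ' * j))
  have h1 : Real.exp (-(σ' * j)) * (σ' * j) ≤ 1 - Real.exp (-(σ' * j)) := by
    have h4 := Real.add_one_le_exp (σ' * j)
    have h5 : (σ' * j + 1) * Real.exp (-(σ' * j)) ≤ Real.exp (σ' * j) * Real.exp (-(σ' * j)) :=
      mul_le_mul_of_nonneg_right h4 (Real.exp_pos _).le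
    rw [← Real.exp_add, add_neg_cancel, Real.exp_zero] at h5
    linarith
  have h2 : σ * j / 2 ≤ 1 - Real.exp (-(σ * j)) := by
    have h4 := Real.add_one_le_exp (σ * j)
    have h5 : (σ * j + 1) * Real.exp (-(σ * j)) ≤ Real.exp (σ * j) * Real.exp (-(σ * j)) :=
      mul_le_mul_of_nonneg_right h4 (Real.exp_pos _).le
    rw [← Real.exp_add, add_neg_cancel, Real.exp_zero] at h5
    have h6 : 0 < σ * j := by positivity
    nlinarith
  have h3 : Real.exp (-(σ' * j)) - Real.exp (-(σ * j)) ≤ Real.exp (-(σ' * j)) * ((σ - σ') * j) := by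
    have e : Real.exp (-(σ * j)) = Real.exp (-(σ' * j)) * Real.exp (-((σ - σ') * j)) := by
      rw [← Real.exp_add]
      congr 1
      ring
    have := Real.add_one_le_exp (-((σ - σ') * j))
    rw [e]
    nlinarith
  rw [tm, tm]
  generalize Real.exp (-(σ' * j)) = a at *
  generalize Real.exp (-(σ * j)) = b at *
  have ha' : 0 < 1 - a := by linarith
  have hb' : 0 < 1 - b := by linarith
  have e1 : 2 * (j : ℝ) * (a / (1 - a)) - 2 * j * (b / (1 - b)) = 2 * j * ((a - b) / ((1 - a) * (1 - b))) := by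
    field_simp
    ring
  have e2 : 4 * (σ - σ') / (σ * σ') = 2 * j * ((a * ((σ - σ') * j)) / ((a * (σ' * j)) * (σ * j / 2))) := by
    field_simp
    ring
  rw [e1, e2]
  apply mul_le_mul_of_nonneg_left _ (by positivity)
  apply div_le_div₀ _ h3 (by positivity)
  · exact mul_le_mul h1 h2 (by positivity) ha'.le
  · exact mul_nonneg ha0.le (mul_nonneg (by linarith) hj0.le)

theorem exp_sg2 {d : ℕ} (hd : 1 ≤ d) : Real.exp (-(sg2 d * d)) = 1 / 2 := by
  have : (0 : ℝ) < d := by exact_mod_cast hd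
  rw [sg2, div_mul_cancel₀ _ this.ne', Real.exp_neg, Real.exp_log (by norm_num)]
  norm_num

theorem HH_step {d : ℕ} (hd : 1 ≤ d) : HH (d + 1) ≤ HH d + 11 * (d + 1) := by
  have hd0 : (0 : ℝ) < d := by exact_mod_cast hd
  have hl : (0.6931471803 : ℝ) < Real.log 2 := Real.log_two_gt_d9
  have hl0 : 0 < Real.log 2 := by linarith
  have h1 : 0 < sg2 d := sg2_pos hd
  have h2 : 0 < sg2 (d + 1) := sg2_pos (by omega)
  have h3 : sg2 (d + 1) ≤ sg2 d := by
    rw [sg2, sg2]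
    apply div_le_div_of_nonneg_left hl0.le hd0
    push_cast
    linarith
  have e1 : 4 * (sg2 d - sg2 (d + 1)) / (sg2 d * sg2 (d + 1)) = 4 / Real.log 2 := by
    rw [sg2, sg2]
    push_cast
    field_simp
    ring
  have b1 : ∑ j ∈ Finset.Icc 1 d, tm (sg2 (d + 1)) j ≤
      (∑ j ∈ Finset.Icc 1 d, tm (sg2 d) j) + d * (4 / Real.log 2) := by
    have h4 : ∑ j ∈ Finset.Icc 1 d, tm (sg2 (d + 1)) j ≤
        ∑ j ∈ Finset.Icc 1 d, (tm (sg2 d) j + 4 / Real.log 2) := by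
      apply Finset.sum_le_sum
      intro j hj
      obtain ⟨hj1, hj2⟩ := Finset.mem_Icc.1 hj
      have h5 := tm_up h2 h3 hj1 (by
        rw [← exp_sg2 hd]
        apply Real.exp_le_exp.2
        have : sg2 d * (j : ℝ) ≤ sg2 d * d := mul_le_mul_of_nonneg_left (by exact_mod_cast hj2) h1.le
        linarith)
      rw [e1] at h5
      linarith
    rw [Finset.sum_add_distrib, Finset.sum_const, Nat.card_Icc, nsmul_eq_mul, Nat.add_sub_cancel] at h4
    exact h4
  have b2 : tm (sg2 (d + 1)) (d + 1) ≤ 2 * (d + 1) / Real.log 2 := by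
    refine (tm_le h2 (by omega)).trans (le_of_eq ?_)
    rw [sg2]
    push_cast
    field_simp
  rw [HH, HH, Finset.sum_Icc_succ_top (by omega)]
  have b3 : d * (4 / Real.log 2) + 2 * (d + 1) / Real.log 2 ≤ 9 * ((d : ℝ) + 1) := by
    have e2 : d * (4 / Real.log 2) + 2 * (d + 1) / Real.log 2 = (6 * (d : ℝ) + 2) / Real.log 2 := by
      field_simp
      ring
    rw [e2, div_le_iff₀ hl0]
    nlinarith
  push_cast
  nlinarith

theorem HH_ge (d : ℕ) : (d : ℝ) ^ 2 ≤ HH d := by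
  rw [HH]
  have : 0 ≤ ∑ j ∈ Finset.Icc 1 d, tm (sg2 d) j := by
    apply Finset.sum_nonneg
    intro j hj
    obtain ⟨hj1, hj2⟩ := Finset.mem_Icc.1 hj
    exact le_trans (mul_nonneg (div_nonneg (by norm_num) (sg2_pos (by omega)).le) (Real.exp_pos _).le)
      (le_tm (sg2_pos (by omega)) hj1)
  linarith

theorem exists_d0 (D N : ℕ) (hD : 1 ≤ D) (hN : HH D ≤ N) :
    ∃ d0 : ℕ, D ≤ d0 ∧ HH d0 ≤ N ∧ (N : ℝ) < HH (d0 + 1) := by
  have hex : ∃ d : ℕ, D ≤ d ∧ (N : ℝ) < HH (d + 1) := by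
    refine ⟨max D N, le_max_left _ _, lt_of_lt_of_le ?_ (HH_ge _)⟩
    have h1 : (N : ℝ) ≤ ((max D N : ℕ) : ℝ) := by exact_mod_cast le_max_right _ _
    push_cast at h1 ⊢
    nlinarith [Nat.cast_nonneg (α := ℝ) N]
  classical
  refine ⟨Nat.find hex, (Nat.find_spec hex).1, ?_, (Nat.find_spec hex).2⟩
  rcases Nat.eq_or_lt_of_le (Nat.find_spec hex).1 with h | h
  · rw [← h]
    exact hN
  · obtain ⟨e, he⟩ : ∃ e, Nat.find hex = e + 1 := ⟨Nat.find hex - 1, by omega⟩
    have h1 := Nat.find_min hex (show e < Nat.find hex by omega)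
    rw [he]
    by_contra h2
    exact h1 ⟨by omega, lt_of_not_ge h2⟩

/-! ### The theorem -/

theorem gp_con (_h1 : S_B1r) (h2 : S_cnta2) (_h3 : S_a2u) (h4 : S_a2l) (_h5 : S_A4r) (h6 : S_cntle) :
    S_Con := by
  intro A hA
  have hl0 : 0 < Real.log 2 := Real.log_pos (by norm_num)
  obtain ⟨ε', hε', D1, hD1⟩ := h4 (Real.log 2) (Real.log 2) (1 / 2) hl0 hl0 (by norm_num)
  -- the threshold
  obtain ⟨D2, hD2⟩ := Filter.eventually_atTop.1
    ((Real.tendsto_log_atTop.comp tendsto_natCast_atTop_atTop).eventually_ge_atTop (1 / ε'))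
  set D : ℕ := max (max D1 D2) 484 with hD
  have hD484 : 484 ≤ D := le_max_right _ _
  have hDD1 : D1 ≤ D := (le_max_left _ _).trans (le_max_left _ _)
  have hDD2 : D2 ≤ D := (le_max_right _ _).trans (le_max_left _ _)
  set C : ℝ := Real.sqrt (2 * (A + 3) / Real.log 2) with hC
  have hC0 : 0 < C := Real.sqrt_pos.2 (by positivity)
  have hC2 : C ^ 2 = 2 * (A + 3) / Real.log 2 := Real.sq_sqrt (by positivity)
  refine ⟨C, hC0, max ⌈HH D⌉₊ ⌈Real.exp (4 / C ^ 2)⌉₊ + 2, ?_⟩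
  intro N hN
  have hN1 : HH D ≤ N := by
    refine (Nat.le_ceil _).trans ?_
    exact_mod_cast (le_max_left _ _).trans ((Nat.le_add_right _ _).trans hN)
  have hN2 : Real.exp (4 / C ^ 2) ≤ N := by
    refine (Nat.le_ceil _).trans ?_
    exact_mod_cast (le_max_right _ _).trans ((Nat.le_add_right _ _).trans hN)
  have hN3 : 2 ≤ N := (Nat.le_add_left _ _).trans hN
  have hNR : (2 : ℝ) ≤ N := by exact_mod_cast hN3
  have hN0 : (0 : ℝ) < N := by linarith
  obtain ⟨d0, hd0, hH1, hH2⟩ := exists_d0 D N (by omega) hN1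
  have hd1 : 1 ≤ d0 := by omega
  have hdR : (484 : ℝ) ≤ d0 := by exact_mod_cast (by omega : 484 ≤ d0)
  have hdR0 : (0 : ℝ) < d0 := by linarith
  refine ⟨d0, ?_⟩
  set σ : ℝ := sg2 d0 with hσdef
  have hσ : 0 < σ := sg2_pos hd1
  have hexp : Real.exp (-(σ * d0)) = 1 / 2 := exp_sg2 hd1
  have hσd : σ * d0 = Real.log 2 := by
    rw [hσdef, sg2, div_mul_cancel₀ _ hdR0.ne']
  have hdN : d0 ^ 2 ≤ N := by
    have := (HH_ge d0).trans hH1
    exact_mod_cast this
  have hdN' : (d0 : ℝ) ^ 2 ≤ N := (HH_ge d0).trans hH1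
  have hds : (d0 : ℝ) ≤ Real.sqrt N := Real.le_sqrt_of_sq_le hdN'
  -- the central term
  have c1 : (d0 : ℝ) ^ (-(3 / 2) - 1 / 2 : ℝ) ≤ a2 d0 σ ((N : ℤ) - (d0 : ℤ) ^ 2) := by
    apply hD1 d0 (hDD1.trans hd0) σ hσ hσd.ge hσd.le
    rw [mu_half]
    have e1 : (((N : ℤ) - (d0 : ℤ) ^ 2 : ℤ) : ℝ) - ∑ j ∈ Finset.Icc 1 d0, tm σ j = N - HH d0 := by
      rw [HH]
      push_cast
      ring
    rw [e1, abs_of_nonneg (by linarith)]
    have e2 : (N : ℝ) - HH d0 ≤ 22 * d0 := by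
      have := HH_step hd1
      linarith
    refine e2.trans ?_
    have e3 : (1 : ℝ) ≤ Real.sqrt (ε' * Real.log d0) := by
      rw [Real.one_le_sqrt]
      have := hD2 d0 (hDD2.trans hd0)
      simp only [Function.comp_apply] at this
      rw [div_le_iff₀ hε'] at this
      linarith
    have e4 : (d0 : ℝ) ^ (3 / 2 : ℝ) = d0 * Real.sqrt d0 := by
      rw [Real.sqrt_eq_rpow, show (3 / 2 : ℝ) = 1 + 1 / 2 by norm_num, Real.rpow_add hdR0, Real.rpow_one]
    have e5 : (22 : ℝ) ≤ Real.sqrt d0 := Real.le_sqrt_of_sq_le (by linarith)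
    rw [e4]
    calc (22 : ℝ) * d0 = 1 * (d0 * 22) := by ring
      _ ≤ Real.sqrt (ε' * Real.log d0) * (d0 * Real.sqrt d0) :=
        mul_le_mul e3 (mul_le_mul_of_nonneg_left e5 hdR0.le) (by positivity) (Real.sqrt_nonneg _)
  have c2 : PB N σ d0 * (N : ℝ)⁻¹ ≤ cnt d0 N := by
    rw [h2 d0 N σ hσ hdN]
    have e1 : Real.exp (σ * ((N : ℝ) - (d0 : ℝ) ^ 2)) * (Zf d0 σ) ^ 2 = PB N σ d0 := by
      rw [PB, Zf, Finset.prod_pow]
    rw [e1]
    apply mul_le_mul_of_nonneg_left _ (PB_pos hσ d0).le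
    refine le_trans ?_ c1
    have e2 : (-(3 / 2) - 1 / 2 : ℝ) = ((-2 : ℤ) : ℝ) := by norm_num
    rw [e2, Real.rpow_intCast]
    have e3 : (d0 : ℝ) ^ (-2 : ℤ) = ((d0 : ℝ) ^ 2)⁻¹ := by
      rw [zpow_neg]
      norm_cast
    rw [e3]
    exact inv_anti₀ (by positivity) hdN'
  -- total
  have t1 : (cnt d0 N : ℝ) ≤ ∑ d ∈ Finset.range (N + 1), (cnt d N : ℝ) := by
    apply Finset.single_le_sum (f := fun d => (cnt d N : ℝ)) (fun i _ => Nat.cast_nonneg _)
    rw [Finset.mem_range]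
    nlinarith
  -- the far terms
  set R : ℝ := C * Real.sqrt (Real.sqrt N * Real.log N) with hR
  have hlogN : 0 < Real.log N := Real.log_pos (by linarith)
  have hsN : 0 < Real.sqrt N := Real.sqrt_pos.2 hN0
  have hR2 : R ^ 2 = C ^ 2 * (Real.sqrt N * Real.log N) := by
    rw [hR, mul_pow, Real.sq_sqrt (show 0 ≤ Real.sqrt N * Real.log N by positivity)]
  have hR0 : 0 < R := mul_pos hC0 (Real.sqrt_pos.2 (by positivity))
  have hRge : 2 ≤ R := by
    have h7 : 4 / C ^ 2 ≤ Real.log N := by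
      rw [Real.le_log_iff_exp_le hN0]
      exact hN2
    have h8 : 4 ≤ C ^ 2 * Real.log N := by
      rw [div_le_iff₀ (by positivity)] at h7
      linarith
    have h9 : 1 ≤ Real.sqrt N := by
      rw [Real.one_le_sqrt]
      linarith
    have h10 : 4 ≤ R ^ 2 := by
      rw [hR2]
      nlinarith [mul_pos (pow_pos hC0 2) hlogN]
    nlinarith
  have f1 : ∀ d ∈ (Finset.range (N + 1)).filter (fun d : ℕ => R < |(d : ℝ) - d0|),
      (cnt d N : ℝ) ≤ PB N σ d0 * Real.exp (-((A + 3) * Real.log N)) := by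
    intro d hd
    have hfar := (Finset.mem_filter.1 hd).2
    have g1 : (cnt d N : ℝ) ≤ PB N σ d := h6 d N σ hσ
    refine g1.trans ((PB_far hσ hexp d).trans ?_)
    apply mul_le_mul_of_nonneg_left _ (PB_pos hσ d0).le
    apply Real.exp_le_exp.2
    have g2 : R ^ 2 / 2 ≤ |(d : ℝ) - d0| * (|(d : ℝ) - d0| - 1) := by
      nlinarith
    have g3 : (A + 3) * Real.log N ≤ σ * (R ^ 2 / 2) := by
      rw [hR2, hC2]
      have e1 : σ = Real.log 2 / d0 := rfl
      have e2 : Real.log 2 / Real.sqrt N ≤ σ := by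
        rw [e1]
        exact div_le_div_of_nonneg_left hl0.le hdR0 hds
      calc (A + 3) * Real.log N
          = Real.log 2 / Real.sqrt N * (2 * (A + 3) / Real.log 2 * (Real.sqrt N * Real.log N) / 2) := by
            field_simp
        _ ≤ σ * (2 * (A + 3) / Real.log 2 * (Real.sqrt N * Real.log N) / 2) :=
            mul_le_mul_of_nonneg_right e2 (by positivity)
    have g4 := mul_le_mul_of_nonneg_left g2 hσ.le
    linarith
  have f2 := Finset.sum_le_card_nsmul _ _ _ f1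
  have f3 : (((Finset.range (N + 1)).filter (fun d : ℕ => R < |(d : ℝ) - d0|)).card : ℝ) ≤ N ^ 2 := by
    have h7 : ((Finset.range (N + 1)).filter (fun d : ℕ => R < |(d : ℝ) - d0|)).card ≤ N + 1 := by
      refine (Finset.card_filter_le _ _).trans ?_
      rw [Finset.card_range]
    have h8 : (((Finset.range (N + 1)).filter (fun d : ℕ => R < |(d : ℝ) - d0|)).card : ℝ) ≤ N + 1 := by
      exact_mod_cast h7
    nlinarith
  rw [nsmul_eq_mul] at f2
  have hexpA : Real.exp (-((A + 3) * Real.log N)) = (N : ℝ) ^ (-A) * ((N : ℝ)⁻¹) ^ 3 := by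
    rw [show -((A + 3) * Real.log N) = Real.log N * (-A) + ((3 : ℕ) : ℝ) * (-Real.log N) by push_cast; ring,
      Real.exp_add, ← Real.rpow_def_of_pos hN0, Real.exp_nat_mul, Real.exp_neg, Real.exp_log hN0]
  have hinv : (N : ℝ) ^ 2 * ((N : ℝ)⁻¹) ^ 3 = (N : ℝ)⁻¹ := by
    field_simp
  calc (∑ d ∈ (Finset.range (N + 1)).filter (fun d : ℕ => R < |(d : ℝ) - d0|), (cnt d N : ℝ))
      ≤ (((Finset.range (N + 1)).filter (fun d : ℕ => R < |(d : ℝ) - d0|)).card : ℝ) *
          (PB N σ d0 * Real.exp (-((A + 3) * Real.log N))) := f2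
    _ ≤ (N : ℝ) ^ 2 * (PB N σ d0 * Real.exp (-((A + 3) * Real.log N))) :=
        mul_le_mul_of_nonneg_right f3 (mul_nonneg (PB_pos hσ d0).le (Real.exp_pos _).le)
    _ = (N : ℝ) ^ (-A) * (PB N σ d0 * (N : ℝ)⁻¹) := by
        rw [hexpA]
        linear_combination (PB N σ d0 * (N : ℝ) ^ (-A)) * hinv
    _ ≤ (N : ℝ) ^ (-A) * ∑ d ∈ Finset.range (N + 1), (cnt d N : ℝ) :=
        mul_le_mul_of_nonneg_left (c2.trans t1) (Real.rpow_nonneg hN0.le _)

end Pool.Agent.H505.GP174.Conc
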