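import Pool.Agent.H174.GP.StD
import Pool.Agent.H505.GP174.B1
import Pool.Agent.H505.GP174.B1r

/-!
Project GP (helper174), second part, sigc: two parameters are close.
-/

set_option autoImplicit false

open Finset

namespace Pool.Agent.H505.GP174.Sigc

open Pool.Agent.H174.GP Pool.Agent.H505.GP174.B1 Pool.Agent.H505.GP174.B1r

theorem tm_diff {σ σ' : ℝ} (hσ : 0 < σ) (h : σ ≤ σ') {j : ℕ} (hj : 1 ≤ j) :
    2 * (σ' - σ) / (σ * σ') * Real.exp (-(σ' * j)) ≤ tm σ j - tm σ' j := by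
  have hσ' : 0 < σ' := lt_of_lt_of_le hσ h
  have ha := exp_lt hσ hj
  have hb := exp_lt hσ' hj
  have hj0 : (0 : ℝ) < j := by exact_mod_cast hj
  have hb0 := Real.exp_pos (-(σ' * j))
  have h1 : 1 - Real.exp (-(σ * j)) ≤ σ * j := by
    have := Real.add_one_le_exp (-(σ * j))
    linarith
  have h2 : 1 - Real.exp (-(σ' * j)) ≤ σ' * j := by
    have := Real.add_one_le_exp (-(σ' * j))
    linarith
  have h3 : Real.exp (-(σ' * j)) * ((σ' - σ) * j) ≤ Real.exp (-(σ * j)) - Real.exp (-(σ' * j)) := by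
    have e : Real.exp (-(σ * j)) = Real.exp (-(σ' * j)) * Real.exp ((σ' - σ) * j) := by
      rw [← Real.exp_add]
      congr 1
      ring
    have := Real.add_one_le_exp ((σ' - σ) * j)
    rw [e]
    nlinarith
  rw [tm, tm]
  generalize Real.exp (-(σ * j)) = a at *
  generalize Real.exp (-(σ' * j)) = b at *
  have ha' : 0 < 1 - a := by linarith
  have hb' : 0 < 1 - b := by linarith
  have e1 : 2 * (j : ℝ) * (a / (1 - a)) - 2 * j * (b / (1 - b)) = 2 * j * ((a - b) / ((1 - a) * (1 - b))) := by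
    field_simp
    ring
  have e2 : 2 * (σ' - σ) / (σ * σ') * b = 2 * j * ((b * ((σ' - σ) * j)) / ((σ * j) * (σ' * j))) := by
    field_simp
  rw [e1, e2]
  apply mul_le_mul_of_nonneg_left _ (by positivity)
  have hn : 0 ≤ b * ((σ' - σ) * j) := mul_nonneg hb0.le (mul_nonneg (by linarith) hj0.le)
  apply div_le_div₀ (hn.trans h3) h3 (mul_pos ha' hb')
  exact mul_le_mul h1 h2 hb'.le (by positivity)

theorem sum_diff {σ σ' : ℝ} (hσ : 0 < σ) (h : σ ≤ σ') (d : ℕ) :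
    d * (2 * (σ' - σ) / (σ * σ') * Real.exp (-(σ' * d))) ≤
      (∑ j ∈ Finset.Icc 1 d, tm σ j) - ∑ j ∈ Finset.Icc 1 d, tm σ' j := by
  have hσ' : 0 < σ' := lt_of_lt_of_le hσ h
  rw [← Finset.sum_sub_distrib]
  have h1 : ∑ _j ∈ Finset.Icc 1 d, (2 * (σ' - σ) / (σ * σ') * Real.exp (-(σ' * d))) ≤
      ∑ j ∈ Finset.Icc 1 d, (tm σ j - tm σ' j) := by
    apply Finset.sum_le_sum
    intro j hj
    obtain ⟨h1, h2⟩ := Finset.mem_Icc.1 hj
    refine le_trans ?_ (tm_diff hσ h h1)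
    apply mul_le_mul_of_nonneg_left
    · apply Real.exp_le_exp.2
      have : σ' * (j : ℝ) ≤ σ' * d := mul_le_mul_of_nonneg_left (by exact_mod_cast h2) hσ'.le
      linarith
    · apply div_nonneg
      · linarith
      · positivity
  rw [Finset.sum_const, Nat.card_Icc, nsmul_eq_mul, Nat.add_sub_cancel] at h1
  exact h1

theorem tm_nonneg {σ : ℝ} (hσ : 0 < σ) {j : ℕ} (hj : 1 ≤ j) : 0 ≤ tm σ j :=
  le_trans (by positivity) (le_tm hσ hj)

/-- the number of terms changes -/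
theorem len_diff {σ : ℝ} (hσ : 0 < σ) {d d' : ℕ} (h : d ≤ d') :
    (∑ j ∈ Finset.Icc 1 d', tm σ j) - ∑ j ∈ Finset.Icc 1 d, tm σ j ≤ ((d' : ℝ) - d) * (2 / σ) ∧
    0 ≤ (∑ j ∈ Finset.Icc 1 d', tm σ j) - ∑ j ∈ Finset.Icc 1 d, tm σ j := by
  induction d', h using Nat.le_induction with
  | base => simp
  | succ m hm ih =>
    rw [Finset.sum_Icc_succ_top (by omega)]
    have h1 := tm_le hσ (show 1 ≤ m + 1 by omega)
    have h2 := tm_nonneg hσ (show 1 ≤ m + 1 by omega)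
    push_cast
    constructor
    · have := ih.1
      linarith
    · have := ih.2
      linarith

theorem len_abs {σ : ℝ} (hσ : 0 < σ) (d d' : ℕ) :
    |(∑ j ∈ Finset.Icc 1 d', tm σ j) - ∑ j ∈ Finset.Icc 1 d, tm σ j| ≤ |(d : ℝ) - d'| * (2 / σ) := by
  rcases le_total d d' with h | h
  · obtain ⟨h1, h2⟩ := len_diff hσ h
    have h3 : (d : ℝ) ≤ d' := by exact_mod_cast h
    rw [abs_of_nonneg h2, abs_sub_comm, abs_of_nonneg (by linarith)]
    exact h1
  · obtain ⟨h1, h2⟩ := len_diff hσ h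
    have h3 : (d' : ℝ) ≤ d := by exact_mod_cast h
    rw [abs_sub_comm, abs_of_nonneg h2, abs_of_nonneg (by linarith)]
    exact h1

theorem low_abs {σ σ' M : ℝ} (hσ : 0 < σ) (hσ' : 0 < σ') {d : ℕ} (h1 : σ * d ≤ M) (h2 : σ' * d ≤ M) :
    d * (2 * |σ - σ'| / (σ * σ') * Real.exp (-M)) ≤
      |(∑ j ∈ Finset.Icc 1 d, tm σ j) - ∑ j ∈ Finset.Icc 1 d, tm σ' j| := by
  rcases le_total σ σ' with h | h
  · have h3 := sum_diff hσ h d
    refine le_trans ?_ (h3.trans (le_abs_self _))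
    rw [abs_sub_comm, abs_of_nonneg (by linarith)]
    apply mul_le_mul_of_nonneg_left _ (Nat.cast_nonneg d)
    apply mul_le_mul_of_nonneg_left
    · exact Real.exp_le_exp.2 (by linarith)
    · apply div_nonneg
      · linarith
      · positivity
  · have h3 := sum_diff hσ' h d
    rw [abs_sub_comm (∑ j ∈ Finset.Icc 1 d, tm σ j)]
    refine le_trans ?_ (h3.trans (le_abs_self _))
    rw [abs_of_nonneg (by linarith), mul_comm σ σ']
    apply mul_le_mul_of_nonneg_left _ (Nat.cast_nonneg d)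
    apply mul_le_mul_of_nonneg_left
    · exact Real.exp_le_exp.2 (by linarith)
    · apply div_nonneg
      · linarith
      · positivity

theorem gp_sigc : S_sigc := by
  intro c1 c2 s1 s2 hc1 hc12 hc2 hs1 hs2
  have hc20 : 0 < c2 := hc1.trans hc12
  set q : ℝ := c2 / c1 with hq
  have hq0 : 0 < q := by positivity
  have hq1 : 1 < q := by rw [hq, lt_div_iff₀ hc1]; linarith
  set κ : ℝ := 2 / (s2 ^ 2 * q) * Real.exp (-(s2 * q)) with hκ
  have hκ0 : 0 < κ := by positivity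
  refine ⟨(1 + q + 2 * q / s1) / κ, by positivity, ?_⟩
  intro N d d' σ σ' hN hd hd' a1 a2 a3 a4 hσ hσ' e1 e2 b1 b2 b3 b4
  have hN0 : (0 : ℝ) < N := by exact_mod_cast hN
  have hd0 : (0 : ℝ) < d := by exact_mod_cast hd
  have hd0' : (0 : ℝ) < d' := by exact_mod_cast hd'
  have hs0 : 0 < Real.sqrt N := Real.sqrt_pos.2 hN0
  -- ratios
  have r1 : (d : ℝ) ≤ q * d' := by
    have h1 : (d : ℝ) ≤ q * (c1 * Real.sqrt N) := by
      refine a2.trans (le_of_eq ?_)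
      rw [hq]
      field_simp
    exact h1.trans (mul_le_mul_of_nonneg_left a3 hq0.le)
  have r2 : (d' : ℝ) ≤ q * d := by
    have h1 : (d' : ℝ) ≤ q * (c1 * Real.sqrt N) := by
      refine a4.trans (le_of_eq ?_)
      rw [hq]
      field_simp
    exact h1.trans (mul_le_mul_of_nonneg_left a1 hq0.le)
  rw [mu_half] at e1 e2
  -- the upper bound
  have u1 : |(∑ j ∈ Finset.Icc 1 d, tm σ j) - ∑ j ∈ Finset.Icc 1 d, tm σ' j| ≤
      |(d : ℝ) - d'| * ((1 + q + 2 * q / s1) * d) := by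
    have h1 := len_abs hσ' d d'
    have h2 : (∑ j ∈ Finset.Icc 1 d, tm σ j) - ∑ j ∈ Finset.Icc 1 d, tm σ' j =
        -(((d : ℝ) - d') * (d + d')) +
        ((∑ j ∈ Finset.Icc 1 d', tm σ' j) - ∑ j ∈ Finset.Icc 1 d, tm σ' j) := by
      have h3 : (∑ j ∈ Finset.Icc 1 d, tm σ j) = N - (d : ℝ) ^ 2 := by linarith
      have h4 : (∑ j ∈ Finset.Icc 1 d', tm σ' j) = N - (d' : ℝ) ^ 2 := by linarith
      rw [h3, h4]
      ring
    rw [h2]
    refine (abs_add_le _ _).trans ?_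
    rw [abs_neg, abs_mul, abs_of_pos (show (0 : ℝ) < d + d' by linarith)]
    have h5 : 2 / σ' ≤ 2 * q / s1 * d := by
      rw [div_le_iff₀ hσ', div_mul_eq_mul_div, div_mul_eq_mul_div, le_div_iff₀ hs1]
      have h6 : s1 ≤ σ' * (q * d) := b3.trans (mul_le_mul_of_nonneg_left r2 hσ'.le)
      linarith
    have h7 : |(d : ℝ) - d'| * (d + d') ≤ |(d : ℝ) - d'| * ((1 + q) * d) :=
      mul_le_mul_of_nonneg_left (by linarith) (abs_nonneg _)
    have h8 : |(d : ℝ) - d'| * (2 / σ') ≤ |(d : ℝ) - d'| * (2 * q / s1 * d) :=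
      mul_le_mul_of_nonneg_left h5 (abs_nonneg _)
    calc |(d : ℝ) - d'| * (d + d') + |(∑ j ∈ Finset.Icc 1 d', tm σ' j) - ∑ j ∈ Finset.Icc 1 d, tm σ' j|
        ≤ |(d : ℝ) - d'| * ((1 + q) * d) + |(d : ℝ) - d'| * (2 * q / s1 * d) :=
          add_le_add h7 (h1.trans h8)
      _ = |(d : ℝ) - d'| * ((1 + q + 2 * q / s1) * d) := by ring
  -- the lower bound
  have m1 : σ * d ≤ s2 * q := b2.trans (by nlinarith)
  have m2 : σ' * d ≤ s2 * q := by
    have : σ' * (d : ℝ) ≤ σ' * (q * d') := mul_le_mul_of_nonneg_left r1 hσ'.le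
    nlinarith
  have l1 := low_abs hσ hσ' m1 m2
  have l2 : κ * (d : ℝ) ^ 3 * |σ - σ'| ≤ d * (2 * |σ - σ'| / (σ * σ') * Real.exp (-(s2 * q))) := by
    have h1 : σ * σ' * (d : ℝ) ^ 2 ≤ s2 ^ 2 * q := by
      have h2 : (σ * d) * (σ' * d) ≤ s2 * (s2 * q) := mul_le_mul b2 m2 (by positivity) hs2.le
      nlinarith
    have h3 : (d : ℝ) ^ 2 / (s2 ^ 2 * q) ≤ 1 / (σ * σ') := by
      rw [div_le_div_iff₀ (by positivity) (by positivity)]
      linarith
    have h4 : κ * (d : ℝ) ^ 3 * |σ - σ'| =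
        (d * (2 * |σ - σ'|) * Real.exp (-(s2 * q))) * ((d : ℝ) ^ 2 / (s2 ^ 2 * q)) := by
      rw [hκ]
      ring
    have h5 : d * (2 * |σ - σ'| / (σ * σ') * Real.exp (-(s2 * q))) =
        (d * (2 * |σ - σ'|) * Real.exp (-(s2 * q))) * (1 / (σ * σ')) := by
      ring
    rw [h4, h5]
    exact mul_le_mul_of_nonneg_left h3 (by positivity)
  have f : κ * (d : ℝ) ^ 3 * |σ - σ'| ≤ |(d : ℝ) - d'| * ((1 + q + 2 * q / s1) * d) :=
    l2.trans (l1.trans u1)
  have e3 : (1 + q + 2 * q / s1) / κ * |(d : ℝ) - d'| / (d : ℝ) ^ 2 =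
      (|(d : ℝ) - d'| * ((1 + q + 2 * q / s1) * d)) / (κ * (d : ℝ) ^ 3) := by
    field_simp
  rw [e3, le_div_iff₀ (by positivity)]
  linarith

end Pool.Agent.H505.GP174.Sigc
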