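import Pool.Agent.H174.GP.StI

/-! Slepian's inequality. -/

set_option linter.unusedSectionVars false

open MeasureTheory ProbabilityTheory Finset Filter Topology

namespace Pool.Agent.H505.GP174.Slep

open Pool.Agent.H174.GP

/-! ### Stein's identity -/

lemma pdf_eq (x : ℝ) : gaussianPDFReal 0 1 x =
    (Real.sqrt (2 * Real.pi))⁻¹ * Real.exp (-(1 / 2) * x ^ 2) := by
  unfold gaussianPDFReal
  simp only [NNReal.coe_one, mul_one, sub_zero]
  congr 2
  ring

lemma pdf_deriv (x : ℝ) : HasDerivAt (gaussianPDFReal 0 1) (-(x * gaussianPDFReal 0 1 x)) x := by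
  have h1 : HasDerivAt (fun x : ℝ => -(1 / 2) * x ^ 2) (-(1 / 2) * (2 * x)) x := by
    have h := (hasDerivAt_pow 2 x).const_mul (-(1 / 2) : ℝ)
    simpa using h
  have h2 := (h1.exp).const_mul (Real.sqrt (2 * Real.pi))⁻¹
  have h3 : gaussianPDFReal 0 1 = fun x => (Real.sqrt (2 * Real.pi))⁻¹ *
      Real.exp (-(1 / 2) * x ^ 2) := by
    funext x; exact pdf_eq x
  rw [h3]
  refine h2.congr_deriv ?_
  ring

lemma int_pdf : Integrable (gaussianPDFReal 0 1) := integrable_gaussianPDFReal 0 1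

lemma int_mul_pdf : Integrable (fun x => x * gaussianPDFReal 0 1 x) := by
  have h := (integrable_mul_exp_neg_mul_sq (b := 1 / 2) (by norm_num)).const_mul
    (Real.sqrt (2 * Real.pi))⁻¹
  refine h.congr (Eventually.of_forall fun x => ?_)
  change (Real.sqrt (2 * Real.pi))⁻¹ * (x * Real.exp (-(1 / 2) * x ^ 2)) =
    x * gaussianPDFReal 0 1 x
  rw [pdf_eq]
  ring

/-- one-dimensional Stein identity -/
lemma stein1 {h h' : ℝ → ℝ} (hd : ∀ x, HasDerivAt h (h' x) x) (hm : Measurable h') {C : ℝ}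
    (hC : ∀ x, |h x| ≤ C) (hC' : ∀ x, |h' x| ≤ C) :
    ∫ x, x * h x ∂(gaussianReal 0 1) = ∫ x, h' x ∂(gaussianReal 0 1) := by
  rw [integral_gaussianReal_eq_integral_smul one_ne_zero,
    integral_gaussianReal_eq_integral_smul one_ne_zero]
  have hh : Measurable h := by
    have : Continuous h := continuous_iff_continuousAt.2 fun x => (hd x).continuousAt
    exact this.measurable
  have hpm : Measurable (gaussianPDFReal 0 1) := measurable_gaussianPDFReal 0 1
  have i1 : Integrable (h * fun x => x * gaussianPDFReal 0 1 x) := by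
    refine (int_mul_pdf.norm.const_mul C).mono' ?_ ?_
    · exact (hh.mul (measurable_id.mul hpm)).aestronglyMeasurable
    · refine Eventually.of_forall fun x => ?_
      rw [Pi.mul_apply, norm_mul, Real.norm_eq_abs]
      exact mul_le_mul_of_nonneg_right (hC x) (norm_nonneg _)
  have i2 : Integrable (h' * fun x => -gaussianPDFReal 0 1 x) := by
    refine (int_pdf.norm.const_mul C).mono' ?_ ?_
    · exact (hm.mul hpm.neg).aestronglyMeasurable
    · refine Eventually.of_forall fun x => ?_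
      rw [Pi.mul_apply, norm_mul, Real.norm_eq_abs, norm_neg]
      exact mul_le_mul_of_nonneg_right (hC' x) (norm_nonneg _)
  have i3 : Integrable (h * fun x => -gaussianPDFReal 0 1 x) := by
    refine (int_pdf.norm.const_mul C).mono' ?_ ?_
    · exact (hh.mul hpm.neg).aestronglyMeasurable
    · refine Eventually.of_forall fun x => ?_
      rw [Pi.mul_apply, norm_mul, Real.norm_eq_abs, norm_neg]
      exact mul_le_mul_of_nonneg_right (hC x) (norm_nonneg _)
  have key := integral_mul_deriv_eq_deriv_mul_of_integrable (u := h)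
    (v := fun x => -gaussianPDFReal 0 1 x) (u' := h') (v' := fun x => x * gaussianPDFReal 0 1 x)
    (fun x _ => hd x) (fun x _ => ?_) i1 i2 i3
  · have e1 : (fun x => gaussianPDFReal 0 1 x • (x * h x)) =
        fun x => h x * (x * gaussianPDFReal 0 1 x) := by
      funext x; rw [smul_eq_mul]; ring
    have e2 : (fun x => gaussianPDFReal 0 1 x • h' x) =
        fun x => -(h' x * -gaussianPDFReal 0 1 x) := by
      funext x; rw [smul_eq_mul]; ring
    rw [e1, e2, key, integral_neg]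
  · have := (pdf_deriv x).neg
    rw [neg_neg] at this
    exact this

/-- the law of a family of independent standard normal variables -/
noncomputable def Ga (ι : Type) : Measure (ι → ℝ) :=
  Measure.infinitePi (fun _ : ι => gaussianReal 0 1)

instance (ι : Type) : IsProbabilityMeasure (Ga ι) := by unfold Ga; infer_instance

variable {ι : Type} [DecidableEq ι]

lemma meas_update (j : ι) :
    Measurable (fun p : (ι → ℝ) × ℝ => Function.update p.1 j p.2) := by
  rw [measurable_pi_iff]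
  intro i
  by_cases h : i = j
  · subst h
    simp only [Function.update_self]
    exact measurable_snd
  · simp only [Function.update_of_ne h]
    exact (measurable_pi_apply i).comp measurable_fst

/-- resampling one coordinate -/
lemma resample (j : ι) : MeasurePreserving (fun p : (ι → ℝ) × ℝ => Function.update p.1 j p.2)
    ((Ga ι).prod (gaussianReal 0 1)) (Ga ι) := by
  refine ⟨meas_update j, ?_⟩
  unfold Ga
  apply Measure.eq_infinitePi
  intro s t ht
  have hms : MeasurableSet (Set.pi (s : Set ι) t) :=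
    MeasurableSet.pi s.countable_toSet fun i _ => ht i
  rw [Measure.map_apply (meas_update j) hms]
  by_cases hj : j ∈ s
  · have e : (fun p : (ι → ℝ) × ℝ => Function.update p.1 j p.2) ⁻¹' (Set.pi (s : Set ι) t) =
        (Set.pi ((s.erase j : Finset ι) : Set ι) t) ×ˢ (t j) := by
      ext p
      simp only [Set.mem_preimage, Set.mem_pi, Set.mem_prod, Finset.mem_coe]
      constructor
      · intro h
        refine ⟨fun i hi => ?_, ?_⟩
        · have h1 := h i (Finset.mem_of_mem_erase hi)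
          rwa [Function.update_of_ne (Finset.ne_of_mem_erase hi)] at h1
        · have h1 := h j hj
          rwa [Function.update_self] at h1
      · rintro ⟨h1, h2⟩ i hi
        by_cases hij : i = j
        · subst hij
          rwa [Function.update_self]
        · rw [Function.update_of_ne hij]
          exact h1 i (Finset.mem_erase.2 ⟨hij, hi⟩)
    rw [e, Measure.prod_prod, Measure.infinitePi_pi _ (fun i _ => ht i), mul_comm,
      Finset.mul_prod_erase s (fun i => (gaussianReal 0 1) (t i)) hj]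
  · have e : (fun p : (ι → ℝ) × ℝ => Function.update p.1 j p.2) ⁻¹' (Set.pi (s : Set ι) t) =
        (Set.pi (s : Set ι) t) ×ˢ (Set.univ) := by
      ext p
      simp only [Set.mem_preimage, Set.mem_pi, Set.mem_prod, Finset.mem_coe, Set.mem_univ, and_true]
      refine forall₂_congr fun i hi => ?_
      have hij : i ≠ j := fun h => hj (h ▸ hi)
      rw [Function.update_of_ne hij]
    rw [e, Measure.prod_prod, Measure.infinitePi_pi _ (fun i _ => ht i), measure_univ, mul_one]

lemma int_comp (j : ι) {F : (ι → ℝ) → ℝ} (hF : Measurable F) :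
    ∫ z, F z ∂(Ga ι) = ∫ p : (ι → ℝ) × ℝ, F (Function.update p.1 j p.2)
      ∂((Ga ι).prod (gaussianReal 0 1)) := by
  conv_lhs => rw [← (resample j).map_eq]
  rw [integral_map (meas_update j).aemeasurable hF.aestronglyMeasurable]

lemma int_id : Integrable (fun x : ℝ => x) (gaussianReal 0 1) :=
  (memLp_id_gaussianReal' (μ := 0) (v := 1) 1 (by simp)).integrable le_rfl

lemma int_coord (t : ι) : Integrable (fun z : ι → ℝ => z t) (Ga ι) := by
  have h : MeasurePreserving (Function.eval t) (Ga ι) (gaussianReal 0 1) :=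
    measurePreserving_eval_infinitePi (fun _ : ι => gaussianReal 0 1) t
  exact h.integrable_comp_of_integrable int_id

lemma int_bdd {F : (ι → ℝ) → ℝ} (hF : Measurable F) {C : ℝ} (hC : ∀ z, |F z| ≤ C) :
    Integrable F (Ga ι) :=
  Integrable.of_bound hF.aestronglyMeasurable C (Eventually.of_forall hC)

/-- Stein's identity for one coordinate -/
lemma stein (j : ι) {g g' : (ι → ℝ) → ℝ} (hg : Measurable g) (hg' : Measurable g') {C : ℝ}
    (hC : ∀ z, |g z| ≤ C) (hC' : ∀ z, |g' z| ≤ C)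
    (hd : ∀ z x, HasDerivAt (fun s => g (Function.update z j s)) (g' (Function.update z j x)) x) :
    ∫ z, z j * g z ∂(Ga ι) = ∫ z, g' z ∂(Ga ι) := by
  have hC0 : 0 ≤ C := (abs_nonneg _).trans (hC fun _ => 0)
  have hzg : Measurable fun z : ι → ℝ => z j * g z := (measurable_pi_apply j).mul hg
  rw [int_comp j hzg, int_comp j hg']
  have i1 : Integrable (fun p : (ι → ℝ) × ℝ => Function.update p.1 j p.2 j *
      g (Function.update p.1 j p.2)) ((Ga ι).prod (gaussianReal 0 1)) := by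
    have h1 : Integrable (fun p : (ι → ℝ) × ℝ => C * ‖p.2‖) ((Ga ι).prod (gaussianReal 0 1)) :=
      ((int_id.norm).comp_snd (Ga ι)).const_mul C
    refine h1.mono' ?_ (Eventually.of_forall fun p => ?_)
    · exact (hzg.comp (meas_update j)).aestronglyMeasurable
    · change ‖Function.update p.1 j p.2 j * g (Function.update p.1 j p.2)‖ ≤ C * ‖p.2‖
      rw [Function.update_self, norm_mul, mul_comm]
      exact mul_le_mul_of_nonneg_right (hC _) (norm_nonneg _)
  have i2 : Integrable (fun p : (ι → ℝ) × ℝ => g' (Function.update p.1 j p.2))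
      ((Ga ι).prod (gaussianReal 0 1)) :=
    Integrable.of_bound (hg'.comp (meas_update j)).aestronglyMeasurable C
      (Eventually.of_forall fun p => hC' _)
  rw [integral_prod _ i1, integral_prod _ i2]
  congr 1
  funext z
  have hm : Measurable fun x : ℝ => g' (Function.update z j x) :=
    hg'.comp ((meas_update j).comp (measurable_const.prodMk measurable_id))
  have := stein1 (h := fun s => g (Function.update z j s))
    (h' := fun x => g' (Function.update z j x)) (hd z) hm (fun x => hC _) (fun x => hC' _)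
  rw [← this]
  congr 1
  funext x
  change Function.update z j x j * g (Function.update z j x) = _
  rw [Function.update_self]

/-! ### the functions -/

/-- linear forms -/
def L (T : Finset ι) (v : ι → ℝ) (z : ι → ℝ) : ℝ := ∑ t ∈ T, v t * z t

lemma meas_L (T : Finset ι) (v : ι → ℝ) : Measurable (L T v) := by
  unfold L
  fun_prop

lemma L_update {T : Finset ι} (v : ι → ℝ) {t : ι} (ht : t ∈ T) (z : ι → ℝ) (x : ℝ) :
    HasDerivAt (fun s => L T v (Function.update z t s)) (v t) x := by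
  unfold L
  have h : ∀ u ∈ T, HasDerivAt (fun s => v u * Function.update z t s u)
      (if u = t then v u else 0) x := by
    intro u _
    by_cases hu : u = t
    · subst hu
      simp only [Function.update_self, if_true]
      simpa using (hasDerivAt_id x).const_mul (v u)
    · simp only [Function.update_of_ne hu, if_neg hu]
      exact hasDerivAt_const x _
  have h2 := HasDerivAt.fun_sum h
  rw [Finset.sum_ite_eq' T t v, if_pos ht] at h2
  exact h2

/-- smooth increasing functions -/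
structure Nice (f f1 f2 : ℝ → ℝ) (C : ℝ) : Prop where
  d1 : ∀ x, HasDerivAt f (f1 x) x
  d2 : ∀ x, HasDerivAt f1 (f2 x) x
  m2 : Measurable f2
  f0 : ∀ x, 0 ≤ f x
  f1' : ∀ x, f x ≤ 1
  p0 : ∀ x, 0 ≤ f1 x
  pC : ∀ x, f1 x ≤ C
  qC : ∀ x, |f2 x| ≤ C
  C1 : 1 ≤ C

lemma Nice.m0 {f f1 f2 : ℝ → ℝ} {C : ℝ} (N : Nice f f1 f2 C) : Measurable f :=
  (continuous_iff_continuousAt.2 fun x => (N.d1 x).continuousAt).measurable

lemma Nice.m1 {f f1 f2 : ℝ → ℝ} {C : ℝ} (N : Nice f f1 f2 C) : Measurable f1 :=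
  (continuous_iff_continuousAt.2 fun x => (N.d2 x).continuousAt).measurable

variable {f f1 f2 : ℝ → ℝ} {C : ℝ} (T : Finset ι) (v : ℕ → ι → ℝ)

/-- products over a set of indices -/
def Pr (f : ℝ → ℝ) (T : Finset ι) (v : ℕ → ι → ℝ) (s : Finset ℕ) (z : ι → ℝ) : ℝ :=
  ∏ k ∈ s, f (L T (v k) z)

lemma Pr_nonneg (N : Nice f f1 f2 C) (s : Finset ℕ) (z : ι → ℝ) : 0 ≤ Pr f T v s z :=
  Finset.prod_nonneg fun _ _ => N.f0 _

lemma Pr_le (N : Nice f f1 f2 C) (s : Finset ℕ) (z : ι → ℝ) : Pr f T v s z ≤ 1 :=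
  Finset.prod_le_one (fun _ _ => N.f0 _) fun _ _ => N.f1' _

lemma Pr_meas (N : Nice f f1 f2 C) (s : Finset ℕ) : Measurable (Pr f T v s) := by
  unfold Pr
  exact Finset.measurable_prod _ fun k _ => N.m0.comp (meas_L T (v k))

lemma Pr_update (N : Nice f f1 f2 C) (s : Finset ℕ) {t : ι} (ht : t ∈ T) (z : ι → ℝ) (x : ℝ) :
    HasDerivAt (fun y => Pr f T v s (Function.update z t y))
      (∑ l ∈ s, Pr f T v (s.erase l) (Function.update z t x) *
        (f1 (L T (v l) (Function.update z t x)) * v l t)) x := by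
  unfold Pr
  have h : ∀ l ∈ s, HasDerivAt (fun y => f (L T (v l) (Function.update z t y)))
      (f1 (L T (v l) (Function.update z t x)) * v l t) x := by
    intro l _
    exact (N.d1 _).comp x (L_update (v l) ht z x)
  have h2 := HasDerivAt.fun_finsetProd h
  simpa only [smul_eq_mul] using h2

/-- the integrand after differentiation -/
def Gi (f f1 : ℝ → ℝ) (T : Finset ι) (v : ℕ → ι → ℝ) (I : Finset ℕ) (i : ℕ) (z : ι → ℝ) : ℝ :=
  Pr f T v (I.erase i) z * f1 (L T (v i) z)

/-- first type of second derivatives -/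
def Ai (f f2 : ℝ → ℝ) (T : Finset ι) (v : ℕ → ι → ℝ) (I : Finset ℕ) (i : ℕ) (z : ι → ℝ) : ℝ :=
  Pr f T v (I.erase i) z * f2 (L T (v i) z)

/-- second type of second derivatives -/
def Bi (f f1 : ℝ → ℝ) (T : Finset ι) (v : ℕ → ι → ℝ) (I : Finset ℕ) (i l : ℕ) (z : ι → ℝ) : ℝ :=
  Pr f T v ((I.erase i).erase l) z * f1 (L T (v l) z) * f1 (L T (v i) z)

lemma Gi_meas (N : Nice f f1 f2 C) (I : Finset ℕ) (i : ℕ) : Measurable (Gi f f1 T v I i) :=
  (Pr_meas T v N _).mul (N.m1.comp (meas_L T (v i)))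

lemma Ai_meas (N : Nice f f1 f2 C) (I : Finset ℕ) (i : ℕ) : Measurable (Ai f f2 T v I i) :=
  (Pr_meas T v N _).mul (N.m2.comp (meas_L T (v i)))

lemma Bi_meas (N : Nice f f1 f2 C) (I : Finset ℕ) (i l : ℕ) : Measurable (Bi f f1 T v I i l) :=
  ((Pr_meas T v N _).mul (N.m1.comp (meas_L T (v l)))).mul (N.m1.comp (meas_L T (v i)))

lemma Gi_le (N : Nice f f1 f2 C) (I : Finset ℕ) (i : ℕ) (z : ι → ℝ) :
    |Gi f f1 T v I i z| ≤ C := by
  have h1 := Pr_nonneg T v N (I.erase i) z
  have h2 := Pr_le T v N (I.erase i) z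
  have h3 := N.p0 (L T (v i) z)
  have h4 := N.pC (L T (v i) z)
  unfold Gi
  rw [abs_of_nonneg (mul_nonneg h1 h3)]
  calc _ ≤ 1 * C := mul_le_mul h2 h4 h3 zero_le_one
    _ = C := one_mul C

lemma Ai_le (N : Nice f f1 f2 C) (I : Finset ℕ) (i : ℕ) (z : ι → ℝ) :
    |Ai f f2 T v I i z| ≤ C := by
  have h1 := Pr_nonneg T v N (I.erase i) z
  have h2 := Pr_le T v N (I.erase i) z
  have h4 := N.qC (L T (v i) z)
  unfold Ai
  rw [abs_mul, abs_of_nonneg h1]
  calc _ ≤ 1 * C := mul_le_mul h2 h4 (abs_nonneg _) zero_le_one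
    _ = C := one_mul C

lemma Bi_nonneg (N : Nice f f1 f2 C) (I : Finset ℕ) (i l : ℕ) (z : ι → ℝ) :
    0 ≤ Bi f f1 T v I i l z :=
  mul_nonneg (mul_nonneg (Pr_nonneg T v N _ z) (N.p0 _)) (N.p0 _)

lemma Bi_le (N : Nice f f1 f2 C) (I : Finset ℕ) (i l : ℕ) (z : ι → ℝ) :
    |Bi f f1 T v I i l z| ≤ C * C := by
  rw [abs_of_nonneg (Bi_nonneg T v N I i l z)]
  have h1 := Pr_nonneg T v N ((I.erase i).erase l) z
  have h2 := Pr_le T v N ((I.erase i).erase l) z
  unfold Bi
  have hC0 : 0 ≤ C := zero_le_one.trans N.C1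
  have h5 : Pr f T v ((I.erase i).erase l) z * f1 (L T (v l) z) ≤ C := by
    calc _ ≤ 1 * C := mul_le_mul h2 (N.pC _) (N.p0 _) zero_le_one
      _ = C := one_mul C
  exact mul_le_mul h5 (N.pC _) (N.p0 _) hC0

/-- Stein's identity for the integrands -/
lemma stein_G (N : Nice f f1 f2 C) (I : Finset ℕ) (i : ℕ) {t : ι} (ht : t ∈ T) :
    ∫ z, z t * Gi f f1 T v I i z ∂(Ga ι) = v i t * ∫ z, Ai f f2 T v I i z ∂(Ga ι) +
      ∑ l ∈ I.erase i, v l t * ∫ z, Bi f f1 T v I i l z ∂(Ga ι) := by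
  have hC0 : 0 ≤ C := zero_le_one.trans N.C1
  set D : (ι → ℝ) → ℝ := fun z => v i t * Ai f f2 T v I i z +
    ∑ l ∈ I.erase i, v l t * Bi f f1 T v I i l z with hD
  have hDm : Measurable D := by
    refine ((Ai_meas T v N I i).const_mul _).add (Finset.measurable_sum _ fun l _ => ?_)
    exact (Bi_meas T v N I i l).const_mul _
  set M : ℝ := max C (|v i t| * C + ∑ l ∈ I.erase i, |v l t| * (C * C)) with hM
  have hDle : ∀ z, |D z| ≤ M := by
    intro z
    refine le_trans ?_ (le_max_right _ _)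
    refine (abs_add_le _ _).trans (add_le_add ?_ ?_)
    · rw [abs_mul]
      exact mul_le_mul_of_nonneg_left (Ai_le T v N I i z) (abs_nonneg _)
    · refine (Finset.abs_sum_le_sum_abs _ _).trans (Finset.sum_le_sum fun l _ => ?_)
      rw [abs_mul]
      exact mul_le_mul_of_nonneg_left (Bi_le T v N I i l z) (abs_nonneg _)
  have hder : ∀ z x, HasDerivAt (fun s => Gi f f1 T v I i (Function.update z t s))
      (D (Function.update z t x)) x := by
    intro z x
    have h1 := (Pr_update T v N (I.erase i) ht z x).mul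
      ((N.d2 _).comp x (L_update (v i) ht z x))
    refine h1.congr_deriv ?_
    simp only [hD, Ai, Bi, Function.comp]
    rw [Finset.sum_mul, add_comm]
    congr 1
    · ring
    · refine Finset.sum_congr rfl fun l _ => ?_
      ring
  rw [stein t (Gi_meas T v N I i) hDm (C := M) (fun z => (Gi_le T v N I i z).trans (le_max_left _ _))
    hDle hder]
  rw [hD, integral_add, integral_const_mul, integral_finsetSum]
  · congr 1
    refine Finset.sum_congr rfl fun l _ => ?_
    rw [integral_const_mul]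
  · intro l _
    exact (int_bdd (Bi_meas T v N I i l) (Bi_le T v N I i l)).const_mul _
  · exact (int_bdd (Ai_meas T v N I i) (Ai_le T v N I i)).const_mul _
  · exact integrable_finsetSum _ fun l _ =>
      (int_bdd (Bi_meas T v N I i l) (Bi_le T v N I i l)).const_mul _

/-! ### interpolation -/

lemma deriv_Pr (N : Nice f f1 f2 C) (I : Finset ℕ) (p w : ℕ → ℝ → ι → ℝ)
    (hp : ∀ i θ t, HasDerivAt (fun θ => p i θ t) (w i θ t) θ) (z : ι → ℝ) (θ : ℝ) :
    HasDerivAt (fun θ => Pr f T (fun k => p k θ) I z)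
      (∑ i ∈ I, Gi f f1 T (fun k => p k θ) I i z * L T (w i θ) z) θ := by
  unfold Pr Gi
  have h : ∀ i ∈ I, HasDerivAt (fun θ => f (L T (p i θ) z))
      (f1 (L T (p i θ) z) * L T (w i θ) z) θ := by
    intro i _
    have h1 : HasDerivAt (fun θ => L T (p i θ) z) (L T (w i θ) z) θ := by
      unfold L
      exact HasDerivAt.fun_sum fun t _ => (hp i θ t).mul_const (z t)
    exact (N.d1 _).comp θ h1
  have h2 := HasDerivAt.fun_finsetProd h
  refine h2.congr_deriv ?_
  refine Finset.sum_congr rfl fun i _ => ?_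
  rw [smul_eq_mul]
  unfold Pr
  ring

lemma L_le {w : ι → ℝ} {K : ℝ} (hK : ∀ t ∈ T, |w t| ≤ K) (z : ι → ℝ) :
    |L T w z| ≤ ∑ t ∈ T, K * |z t| := by
  unfold L
  refine (Finset.abs_sum_le_sum_abs _ _).trans (Finset.sum_le_sum fun t ht => ?_)
  rw [abs_mul]
  exact mul_le_mul_of_nonneg_right (hK t ht) (abs_nonneg _)

lemma phi_deriv (N : Nice f f1 f2 C) (I : Finset ℕ) (p w : ℕ → ℝ → ι → ℝ) (K : ℝ)
    (hp : ∀ i θ t, HasDerivAt (fun θ => p i θ t) (w i θ t) θ)
    (hK : ∀ i ∈ I, ∀ θ, ∀ t ∈ T, |w i θ t| ≤ K) (θ : ℝ) :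
    HasDerivAt (fun θ => ∫ z, Pr f T (fun k => p k θ) I z ∂(Ga ι))
      (∫ z, ∑ i ∈ I, Gi f f1 T (fun k => p k θ) I i z * L T (w i θ) z ∂(Ga ι)) θ := by
  have hC0 : 0 ≤ C := zero_le_one.trans N.C1
  have h := hasDerivAt_integral_of_dominated_loc_of_deriv_le (μ := Ga ι) (𝕜 := ℝ) (s := Set.univ)
    (F := fun θ z => Pr f T (fun k => p k θ) I z)
    (F' := fun θ z => ∑ i ∈ I, Gi f f1 T (fun k => p k θ) I i z * L T (w i θ) z)
    (x₀ := θ) (bound := fun z => ∑ i ∈ I, C * ∑ t ∈ T, K * |z t|) Filter.univ_mem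
    (Eventually.of_forall fun x => (Pr_meas T _ N I).aestronglyMeasurable)
    (int_bdd (Pr_meas T _ N I) (C := 1) fun z => by
      rw [abs_of_nonneg (Pr_nonneg T _ N I z)]; exact Pr_le T _ N I z)
    (Finset.measurable_sum _ fun i _ =>
      (Gi_meas T _ N I i).mul (meas_L T (w i θ))).aestronglyMeasurable
    (Eventually.of_forall fun z x _ => by
      rw [Real.norm_eq_abs]
      refine (Finset.abs_sum_le_sum_abs _ _).trans (Finset.sum_le_sum fun i hi => ?_)
      rw [abs_mul]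
      exact mul_le_mul (Gi_le T _ N I i z) (L_le T (hK i hi x) z) (abs_nonneg _) hC0)
    (integrable_finsetSum _ fun i _ => (integrable_finsetSum _ fun t _ =>
      ((int_coord t).abs).const_mul K).const_mul C)
    (Eventually.of_forall fun z x _ => deriv_Pr T N I p w hp z x)
  exact h.2

lemma phi_nonneg (N : Nice f f1 f2 C) (I : Finset ℕ) (v w : ℕ → ι → ℝ)
    (h0 : ∀ i ∈ I, ∑ t ∈ T, w i t * v i t = 0)
    (h1 : ∀ i ∈ I, ∀ l ∈ I, i ≠ l → 0 ≤ ∑ t ∈ T, w i t * v l t) :
    0 ≤ ∫ z, ∑ i ∈ I, Gi f f1 T v I i z * L T (w i) z ∂(Ga ι) := by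
  have hi1 : ∀ i t, Integrable (fun z => z t * Gi f f1 T v I i z) (Ga ι) := by
    intro i t
    refine ((int_coord t).abs.const_mul C).mono' ?_ (Eventually.of_forall fun z => ?_)
    · exact ((measurable_pi_apply t).mul (Gi_meas T v N I i)).aestronglyMeasurable
    · rw [Real.norm_eq_abs, abs_mul, mul_comm]
      exact mul_le_mul_of_nonneg_right (Gi_le T v N I i z) (abs_nonneg _)
  have e1 : (fun z => ∑ i ∈ I, Gi f f1 T v I i z * L T (w i) z) =
      fun z => ∑ i ∈ I, ∑ t ∈ T, w i t * (z t * Gi f f1 T v I i z) := by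
    funext z
    refine Finset.sum_congr rfl fun i _ => ?_
    unfold L
    rw [Finset.mul_sum]
    exact Finset.sum_congr rfl fun t _ => by ring
  rw [e1, integral_finsetSum _ (fun i _ => integrable_finsetSum _ fun t _ =>
    (hi1 i t).const_mul _)]
  refine Finset.sum_nonneg fun i hi => ?_
  rw [integral_finsetSum _ (fun t _ => (hi1 i t).const_mul _)]
  have e2 : ∑ t ∈ T, ∫ z, w i t * (z t * Gi f f1 T v I i z) ∂(Ga ι) =
      (∑ t ∈ T, w i t * v i t) * ∫ z, Ai f f2 T v I i z ∂(Ga ι) +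
        ∑ l ∈ I.erase i, (∑ t ∈ T, w i t * v l t) * ∫ z, Bi f f1 T v I i l z ∂(Ga ι) := by
    have e3 : ∀ t ∈ T, ∫ z, w i t * (z t * Gi f f1 T v I i z) ∂(Ga ι) =
        w i t * v i t * (∫ z, Ai f f2 T v I i z ∂(Ga ι)) +
          ∑ l ∈ I.erase i, w i t * v l t * ∫ z, Bi f f1 T v I i l z ∂(Ga ι) := by
      intro t ht
      rw [integral_const_mul, stein_G T v N I i ht, mul_add, Finset.mul_sum, mul_assoc]
      congr 1
      exact Finset.sum_congr rfl fun l _ => by ring
    rw [Finset.sum_congr rfl e3, Finset.sum_add_distrib, Finset.sum_mul, Finset.sum_comm]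
    congr 1
    exact Finset.sum_congr rfl fun l _ => by rw [Finset.sum_mul]
  rw [e2, h0 i hi, zero_mul, zero_add]
  refine Finset.sum_nonneg fun l hl => ?_
  rw [Finset.mem_erase] at hl
  exact mul_nonneg (h1 i hi l hl.2 hl.1.symm)
    (integral_nonneg fun z => Bi_nonneg T v N I i l z)

lemma phi_mono (N : Nice f f1 f2 C) (I : Finset ℕ) (p w : ℕ → ℝ → ι → ℝ) (K : ℝ)
    (hp : ∀ i θ t, HasDerivAt (fun θ => p i θ t) (w i θ t) θ)
    (hK : ∀ i ∈ I, ∀ θ, ∀ t ∈ T, |w i θ t| ≤ K)
    (h0 : ∀ i ∈ I, ∀ θ, ∑ t ∈ T, w i θ t * p i θ t = 0)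
    (h1 : ∀ i ∈ I, ∀ l ∈ I, i ≠ l → ∀ θ ∈ Set.Icc 0 (Real.pi / 2),
      0 ≤ ∑ t ∈ T, w i θ t * p l θ t) :
    ∫ z, Pr f T (fun k => p k 0) I z ∂(Ga ι) ≤
      ∫ z, Pr f T (fun k => p k (Real.pi / 2)) I z ∂(Ga ι) := by
  have hd := phi_deriv T N I p w K hp hK
  have hmono : MonotoneOn (fun θ => ∫ z, Pr f T (fun k => p k θ) I z ∂(Ga ι))
      (Set.Icc 0 (Real.pi / 2)) := by
    apply monotoneOn_of_deriv_nonneg (convex_Icc _ _)
    · exact fun x _ => (hd x).continuousAt.continuousWithinAt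
    · exact fun x _ => (hd x).differentiableAt.differentiableWithinAt
    · intro x hx
      rw [interior_Icc] at hx
      rw [(hd x).deriv]
      exact phi_nonneg T N I (fun k => p k x) (fun k => w k x) (fun i hi => h0 i hi x)
        (fun i hi l hl hil => h1 i hi l hl hil x ⟨hx.1.le, hx.2.le⟩)
  have hpi : (0 : ℝ) ≤ Real.pi / 2 := by positivity
  exact hmono ⟨le_rfl, hpi⟩ ⟨hpi, le_rfl⟩ hpi

/-! ### marginals -/

lemma marg {e : ℕ → ι} (he : Function.Injective e) :
    MeasurePreserving (fun (z : ι → ℝ) (j : ℕ) => z (e j)) (Ga ι) GA := by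
  have hm : Measurable (fun (z : ι → ℝ) (j : ℕ) => z (e j)) := by fun_prop
  refine ⟨hm, ?_⟩
  unfold GA
  apply Measure.eq_infinitePi
  intro s t ht
  have hms : MeasurableSet (Set.pi (s : Set ℕ) t) :=
    MeasurableSet.pi s.countable_toSet fun i _ => ht i
  rw [Measure.map_apply hm hms]
  set t' : ι → Set ℝ := Function.extend e t (fun _ => Set.univ) with ht'
  have ht'e : ∀ j, t' (e j) = t j := fun j => he.extend_apply _ _ j
  have e1 : (fun (z : ι → ℝ) (j : ℕ) => z (e j)) ⁻¹' (Set.pi (s : Set ℕ) t) =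
      Set.pi ((s.map ⟨e, he⟩ : Finset ι) : Set ι) t' := by
    ext z
    simp only [Set.mem_preimage, Set.mem_pi, Finset.mem_coe, Finset.mem_map,
      Function.Embedding.coeFn_mk]
    constructor
    · rintro h i ⟨j, hj, rfl⟩
      rw [ht'e]
      exact h j hj
    · intro h j hj
      have := h (e j) ⟨j, hj, rfl⟩
      rwa [ht'e] at this
  rw [e1]
  unfold Ga
  rw [Measure.infinitePi_pi, Finset.prod_map]
  · refine Finset.prod_congr rfl fun j _ => ?_
    simp only [Function.Embedding.coeFn_mk]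
    rw [ht'e]
  · intro i hi
    rw [Finset.mem_map] at hi
    obtain ⟨j, -, rfl⟩ := hi
    simp only [Function.Embedding.coeFn_mk]
    rw [ht'e]
    exact ht j

lemma marg_int {e : ℕ → ι} (he : Function.Injective e) {F : (ℕ → ℝ) → ℝ} (hF : Measurable F) :
    ∫ z : ι → ℝ, F (fun j => z (e j)) ∂(Ga ι) = ∫ z, F z ∂GA := by
  rw [← (marg he).map_eq, integral_map (marg he).measurable.aemeasurable hF.aestronglyMeasurable]

/-! ### the comparison for smooth functions -/

/-- the interpolating vectors -/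
noncomputable def pv (α β : ℕ → ℕ → ℝ) (i : ℕ) (θ : ℝ) : ℕ ⊕ ℕ → ℝ
  | Sum.inl j => Real.cos θ * α i j
  | Sum.inr j => Real.sin θ * β i j

/-- their derivatives -/
noncomputable def wv (α β : ℕ → ℕ → ℝ) (i : ℕ) (θ : ℝ) : ℕ ⊕ ℕ → ℝ
  | Sum.inl j => -Real.sin θ * α i j
  | Sum.inr j => Real.cos θ * β i j

lemma sum_wp (α β : ℕ → ℕ → ℝ) (i l : ℕ) (θ : ℝ) (A : Finset ℕ) :
    ∑ t ∈ A.disjSum A, wv α β i θ t * pv α β l θ t =
      Real.sin θ * Real.cos θ * (∑ j ∈ A, β i j * β l j - ∑ j ∈ A, α i j * α l j) := by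
  rw [Finset.sum_disjSum, mul_sub, Finset.mul_sum, Finset.mul_sum, ← Finset.sum_sub_distrib,
    ← Finset.sum_add_distrib]
  refine Finset.sum_congr rfl fun j _ => ?_
  simp only [wv, pv]
  ring

lemma smooth_cmp (N : Nice f f1 f2 C) (n : ℕ) (I : Finset ℕ) (α β : ℕ → ℕ → ℝ)
    (h0 : ∀ i ∈ I, ∑ j ∈ Finset.Icc 1 n, (α i j) ^ 2 = ∑ j ∈ Finset.Icc 1 n, (β i j) ^ 2)
    (h1 : ∀ i ∈ I, ∀ k ∈ I, i ≠ k →
      ∑ j ∈ Finset.Icc 1 n, α i j * α k j ≤ ∑ j ∈ Finset.Icc 1 n, β i j * β k j) :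
    ∫ z, ∏ k ∈ I, f (∑ j ∈ Finset.Icc 1 n, α k j * z j) ∂GA ≤
      ∫ z, ∏ k ∈ I, f (∑ j ∈ Finset.Icc 1 n, β k j * z j) ∂GA := by
  set A := Finset.Icc 1 n with hA
  have key := phi_mono (ι := ℕ ⊕ ℕ) (A.disjSum A) N I (pv α β) (wv α β)
    (∑ i ∈ I, ∑ j ∈ A, (|α i j| + |β i j|)) ?_ ?_ ?_ ?_
  · have hm : ∀ γ : ℕ → ℕ → ℝ, Measurable fun z : ℕ → ℝ => ∏ k ∈ I, f (∑ j ∈ A, γ k j * z j) := by
      intro γ
      refine Finset.measurable_prod _ fun k _ => N.m0.comp ?_
      fun_prop
    have e1 : ∫ z, Pr f (A.disjSum A) (fun k => pv α β k 0) I z ∂(Ga (ℕ ⊕ ℕ)) =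
        ∫ z, ∏ k ∈ I, f (∑ j ∈ A, α k j * z j) ∂GA := by
      rw [← marg_int (ι := ℕ ⊕ ℕ) Sum.inl_injective (hm α)]
      congr 1
      funext z
      unfold Pr L
      refine Finset.prod_congr rfl fun k _ => ?_
      rw [Finset.sum_disjSum]
      simp [pv]
    have e2 : ∫ z, Pr f (A.disjSum A) (fun k => pv α β k (Real.pi / 2)) I z ∂(Ga (ℕ ⊕ ℕ)) =
        ∫ z, ∏ k ∈ I, f (∑ j ∈ A, β k j * z j) ∂GA := by
      rw [← marg_int (ι := ℕ ⊕ ℕ) Sum.inr_injective (hm β)]
      congr 1
      funext z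
      unfold Pr L
      refine Finset.prod_congr rfl fun k _ => ?_
      rw [Finset.sum_disjSum]
      simp [pv]
    rw [e1, e2] at key
    exact key
  · intro i θ t
    rcases t with j | j
    · exact (Real.hasDerivAt_cos θ).mul_const _
    · exact (Real.hasDerivAt_sin θ).mul_const _
  · intro i hi θ t ht
    have hle : ∀ j ∈ A, |α i j| + |β i j| ≤ ∑ i ∈ I, ∑ j ∈ A, (|α i j| + |β i j|) := by
      intro j hj
      have h2 : |α i j| + |β i j| ≤ ∑ j ∈ A, (|α i j| + |β i j|) :=
        Finset.single_le_sum (f := fun j => |α i j| + |β i j|) (fun j _ => by positivity) hj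
      have h3 : ∑ j ∈ A, (|α i j| + |β i j|) ≤ ∑ i ∈ I, ∑ j ∈ A, (|α i j| + |β i j|) :=
        Finset.single_le_sum (f := fun i => ∑ j ∈ A, (|α i j| + |β i j|))
          (fun i _ => Finset.sum_nonneg fun j _ => by positivity) hi
      exact h2.trans h3
    rcases t with j | j
    · have hj : j ∈ A := by simpa using ht
      refine le_trans ?_ (hle j hj)
      simp only [wv]
      rw [abs_mul, abs_neg]
      have := mul_le_mul_of_nonneg_right (Real.abs_sin_le_one θ) (abs_nonneg (α i j))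
      have h4 := abs_nonneg (β i j)
      linarith
    · have hj : j ∈ A := by simpa using ht
      refine le_trans ?_ (hle j hj)
      simp only [wv]
      rw [abs_mul]
      have := mul_le_mul_of_nonneg_right (Real.abs_cos_le_one θ) (abs_nonneg (β i j))
      have h4 := abs_nonneg (α i j)
      linarith
  · intro i hi θ
    rw [sum_wp]
    have h2 := h0 i hi
    have e1 : ∀ γ : ℕ → ℕ → ℝ, ∑ j ∈ A, γ i j * γ i j = ∑ j ∈ A, γ i j ^ 2 :=
      fun γ => Finset.sum_congr rfl fun j _ => by ring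
    rw [e1 β, e1 α, h2, sub_self, mul_zero]
  · intro i hi l hl hil θ hθ
    rw [sum_wp]
    refine mul_nonneg (mul_nonneg ?_ ?_) (sub_nonneg.2 (h1 i hi l hl hil))
    · exact Real.sin_nonneg_of_nonneg_of_le_pi hθ.1 (by linarith [hθ.2, Real.pi_pos])
    · exact Real.cos_nonneg_of_neg_pi_div_two_le_of_le (by linarith [hθ.1, Real.pi_pos]) hθ.2

/-! ### the approximation of the indicator -/

lemma nice_sig (a b : ℝ) (ha : 0 ≤ a) : Nice (fun x => Real.sigmoid (a * x + b))
    (fun x => a * (Real.sigmoid (a * x + b) * (1 - Real.sigmoid (a * x + b))))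
    (fun x => a * (a * (Real.sigmoid (a * x + b) * (1 - Real.sigmoid (a * x + b)) *
      (1 - 2 * Real.sigmoid (a * x + b))))) (1 + a + a ^ 2) := by
  have hl : ∀ x : ℝ, HasDerivAt (fun x => a * x + b) a x := by
    intro x
    simpa using ((hasDerivAt_id x).const_mul a).add_const b
  have hs : ∀ x : ℝ, HasDerivAt (fun x => Real.sigmoid (a * x + b))
      (a * (Real.sigmoid (a * x + b) * (1 - Real.sigmoid (a * x + b)))) x := by
    intro x
    have h := (Real.hasDerivAt_sigmoid (a * x + b)).comp x (hl x)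
    refine h.congr_deriv ?_
    ring
  have hb : ∀ y : ℝ, 0 ≤ Real.sigmoid y * (1 - Real.sigmoid y) ∧
      Real.sigmoid y * (1 - Real.sigmoid y) ≤ 1 := by
    intro y
    have h1 := Real.sigmoid_nonneg y
    have h2 := Real.sigmoid_le_one y
    constructor
    · exact mul_nonneg h1 (by linarith)
    · nlinarith
  refine ⟨hs, ?_, ?_, fun x => Real.sigmoid_nonneg _, fun x => Real.sigmoid_le_one _,
    fun x => mul_nonneg ha (hb _).1, ?_, ?_, ?_⟩
  · intro x
    have h1 := hs x
    have h2 := ((h1.mul ((hasDerivAt_const x (1 : ℝ)).sub h1)).const_mul a)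
    refine h2.congr_deriv ?_
    simp only [Pi.sub_apply]
    ring
  · have : Measurable (fun x : ℝ => Real.sigmoid (a * x + b)) := by
      have hc : Continuous (fun x : ℝ => Real.sigmoid (a * x + b)) :=
        continuous_sigmoid.comp (by fun_prop)
      exact hc.measurable
    fun_prop
  · intro x
    have := mul_le_mul_of_nonneg_left (hb (a * x + b)).2 ha
    nlinarith [sq_nonneg a]
  · intro x
    rw [abs_mul, abs_mul, abs_mul, abs_of_nonneg ha, abs_of_nonneg (hb (a * x + b)).1]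
    have h1 : |1 - 2 * Real.sigmoid (a * x + b)| ≤ 1 := by
      rw [abs_le]
      have h1 := Real.sigmoid_nonneg (a * x + b)
      have h2 := Real.sigmoid_le_one (a * x + b)
      constructor <;> linarith
    have h2 : Real.sigmoid (a * x + b) * (1 - Real.sigmoid (a * x + b)) *
        |1 - 2 * Real.sigmoid (a * x + b)| ≤ 1 :=
      mul_le_one₀ (hb _).2 (abs_nonneg _) h1
    have h3 := mul_le_mul_of_nonneg_left (mul_le_mul_of_nonneg_left h2 ha) ha
    nlinarith
  · nlinarith [sq_nonneg a]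

/-- approximations of the indicator of the half line -/
noncomputable def fs (m : ℕ) (x : ℝ) : ℝ := Real.sigmoid ((m : ℝ) ^ 2 * x + m)

lemma fs_lim (x : ℝ) : Tendsto (fun m => fs m x) atTop (𝓝 (if 0 ≤ x then 1 else 0)) := by
  unfold fs
  split_ifs with hx
  · refine Real.tendsto_sigmoid_atTop.comp ?_
    refine tendsto_atTop_mono (fun m => ?_) tendsto_natCast_atTop_atTop
    have : 0 ≤ (m : ℝ) ^ 2 * x := by positivity
    linarith
  · push Not at hx
    refine Real.tendsto_sigmoid_atBot.comp ?_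
    have h1 : Tendsto (fun m : ℕ => (m : ℝ) * ((m : ℝ) * x + 1)) atTop atBot := by
      refine Tendsto.atTop_mul_atBot₀ tendsto_natCast_atTop_atTop ?_
      refine tendsto_atBot_add_const_right _ _ ?_
      exact tendsto_natCast_atTop_atTop.atTop_mul_const_of_neg hx
    refine h1.congr fun m => ?_
    ring

lemma int_lim (n : ℕ) (I : Finset ℕ) (α : ℕ → ℕ → ℝ) :
    Tendsto (fun m => ∫ z, ∏ k ∈ I, fs m (∑ j ∈ Finset.Icc 1 n, α k j * z j) ∂GA) atTop
      (𝓝 (GA.real {z | ∀ i ∈ I, 0 ≤ ∑ j ∈ Finset.Icc 1 n, α i j * z j})) := by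
  have hms : MeasurableSet {z : ℕ → ℝ | ∀ i ∈ I, 0 ≤ ∑ j ∈ Finset.Icc 1 n, α i j * z j} := by
    have : {z : ℕ → ℝ | ∀ i ∈ I, 0 ≤ ∑ j ∈ Finset.Icc 1 n, α i j * z j} =
        ⋂ i ∈ I, {z : ℕ → ℝ | 0 ≤ ∑ j ∈ Finset.Icc 1 n, α i j * z j} := by
      ext z
      simp
    rw [this]
    refine Finset.measurableSet_biInter _ fun i _ => ?_
    exact measurableSet_le measurable_const (by fun_prop)
  have h1 : GA.real {z | ∀ i ∈ I, 0 ≤ ∑ j ∈ Finset.Icc 1 n, α i j * z j} =
      ∫ z, ∏ k ∈ I, (if 0 ≤ ∑ j ∈ Finset.Icc 1 n, α k j * z j then (1 : ℝ) else 0) ∂GA := by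
    rw [← integral_indicator_one hms]
    congr 1
    funext z
    rw [Finset.prod_ite_zero, Finset.prod_const_one]
    by_cases hz : ∀ i ∈ I, 0 ≤ ∑ j ∈ Finset.Icc 1 n, α i j * z j
    · rw [if_pos hz, Set.indicator_of_mem (show z ∈ {z : ℕ → ℝ | ∀ i ∈ I, 0 ≤ ∑ j ∈ Finset.Icc 1 n,
        α i j * z j} from hz)]
      rfl
    · rw [if_neg hz, Set.indicator_of_notMem (show z ∉ {z : ℕ → ℝ | ∀ i ∈ I, 0 ≤
        ∑ j ∈ Finset.Icc 1 n, α i j * z j} from hz)]
  rw [h1]
  refine tendsto_integral_of_dominated_convergence (fun _ => (1 : ℝ)) ?_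
    (integrable_const _) ?_ ?_
  · intro m
    have hN := nice_sig ((m : ℝ) ^ 2) m (by positivity)
    exact (Finset.measurable_prod _ fun k _ => hN.m0.comp
      (by fun_prop : Measurable fun z : ℕ → ℝ => ∑ j ∈ Finset.Icc 1 n, α k j * z j)).aestronglyMeasurable
  · intro m
    refine Eventually.of_forall fun z => ?_
    have hp : 0 ≤ ∏ k ∈ I, fs m (∑ j ∈ Finset.Icc 1 n, α k j * z j) :=
      Finset.prod_nonneg fun k _ => Real.sigmoid_nonneg _
    rw [Real.norm_of_nonneg hp]
    exact Finset.prod_le_one (fun k _ => Real.sigmoid_nonneg _) fun k _ => Real.sigmoid_le_one _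
  · refine Eventually.of_forall fun z => ?_
    exact tendsto_finsetProd _ fun k _ => fs_lim _

end Pool.Agent.H505.GP174.Slep

namespace Pool.Agent.H505.GP174

open Pool.Agent.H174.GP

/-- **Slepian's inequality.** -/
theorem gp_slep : Pool.Agent.H174.GP.S_slep := by
  intro n I α β h0 h1
  refine le_of_tendsto_of_tendsto' (Slep.int_lim n I α) (Slep.int_lim n I β) fun m => ?_
  exact Slep.smooth_cmp (Slep.nice_sig ((m : ℝ) ^ 2) m (by positivity)) n I α β h0 h1

end Pool.Agent.H505.GP174
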