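import Pool.Agent.H174.GP.StA
import Pool.Agent.H174.GP.StP
import Pool.Agent.H174.GP.StC

/-!
Project GP (helper174), part typs: Gaussian tail for the small part of the sum.
-/

set_option autoImplicit false

open MeasureTheory Finset Filter Topology

namespace Pool.Agent.H505.GP174.Typs

open Pool.Agent.H174.GP

/-- the centred term -/
noncomputable def ph (σ : ℝ) (j : ℕ) (y : ℝ) : ℝ :=
  (j : ℝ) * (|(Tq (σ * j) y : ℝ)| - ∫ x, |(Tq (σ * j) x : ℝ)| ∂lap)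

theorem sub_eq (h3 : S_Tqmean) (σ : ℝ) (hσ : 0 < σ) (ω : ℕ → ℝ) (B : ℕ) :
    (sX σ ω B : ℝ) - m1 B σ = ∑ j ∈ Finset.Icc 1 B, ph σ j (ω j) := by
  rw [sX, m1]
  push_cast
  rw [← Finset.sum_sub_distrib]
  apply Finset.sum_congr rfl
  intro j hj
  have hj0 : (0 : ℝ) < j := by exact_mod_cast (Finset.mem_Icc.1 hj).1
  rw [ph, h3 _ (mul_pos hσ hj0), geo, mul_sub]
  congr 4
  ring_nf

theorem ev (κ ε' : ℝ) (hκ : 0 < κ) (hε' : 0 < ε') :
    ∃ d0 : ℕ, 2 ≤ d0 ∧ ∀ d : ℕ, d0 ≤ d → ε' * Real.log d ≤ κ * d := by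
  have h := (Real.isLittleO_log_id_atTop.comp_tendsto tendsto_natCast_atTop_atTop).bound
    (div_pos hκ hε')
  obtain ⟨N, hN⟩ := eventually_atTop.1 h
  refine ⟨max N 2, le_max_right _ _, fun d hd => ?_⟩
  have h1 := hN d ((le_max_left _ _).trans hd)
  simp only [Function.comp_apply, id, Real.norm_eq_abs] at h1
  rw [abs_of_nonneg (Real.log_natCast_nonneg d), abs_of_nonneg (Nat.cast_nonneg d)] at h1
  have h2 := mul_le_mul_of_nonneg_left h1 hε'.le
  have h3 : ε' * (κ / ε' * (d : ℝ)) = κ * d := by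
    field_simp
  linarith

theorem gp_typs (h1 : S_mgf) (h2 : S_chern) (h3 : S_Tqmean) (h4 : S_Tq) : S_typs := by
  intro s1 s2 ε' A hs1 hs2 hε' hA
  obtain ⟨Cm, hCm, hmgf⟩ := h1 s2 hs2
  have hη1 : 0 < s1 ^ 2 * ε' / (4 * Cm * (A + 1)) := by positivity
  obtain ⟨η, hη⟩ : ∃ η, η = min (1 / 2) (s1 ^ 2 * ε' / (4 * Cm * (A + 1))) := ⟨_, rfl⟩
  have hη0 : 0 < η := by rw [hη]; exact lt_min (by norm_num) hη1
  have hηh : η ≤ 1 / 2 := by rw [hη]; exact min_le_left _ _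
  have hηA : η * (4 * Cm * (A + 1)) ≤ s1 ^ 2 * ε' := by
    have : η ≤ s1 ^ 2 * ε' / (4 * Cm * (A + 1)) := by rw [hη]; exact min_le_right _ _
    rwa [le_div_iff₀ (by positivity)] at this
  obtain ⟨κ, hκ⟩ : ∃ κ, κ = Cm * η / (2 * s2) := ⟨_, rfl⟩
  have hκ0 : 0 < κ := by rw [hκ]; positivity
  obtain ⟨d0, hd02, hd0⟩ := ev (κ ^ 2) ε' (by positivity) hε'
  refine ⟨η, hη0, by linarith, d0, fun d hd σ hσ hσ1 hσ2 B hB => ?_⟩
  have hd2 : 2 ≤ d := hd02.trans hd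
  have hdpos : (0 : ℝ) < d := by
    have : 0 < d := by omega
    exact_mod_cast this
  have hd2' : (2 : ℝ) ≤ d := by exact_mod_cast hd2
  have hlog : 0 < Real.log d := Real.log_pos (by linarith)
  have hlogd := hd0 d hd
  obtain ⟨u, hu⟩ : ∃ u, u = Real.sqrt (ε' * Real.log d) * (d : ℝ) ^ (3 / 2 : ℝ) := ⟨_, rfl⟩
  have hu0 : 0 ≤ u := by rw [hu]; positivity
  have hd3 : ((d : ℝ) ^ (3 / 2 : ℝ)) ^ 2 = (d : ℝ) ^ 3 := by
    rw [← Real.rpow_natCast, ← Real.rpow_mul hdpos.le]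
    norm_num
  have hu2 : u ^ 2 = ε' * Real.log d * (d : ℝ) ^ 3 := by
    rw [hu, mul_pow, Real.sq_sqrt (by positivity), hd3]
  have huκ : u ≤ κ * (d : ℝ) ^ 2 := by
    have h5 : u ^ 2 ≤ (κ * (d : ℝ) ^ 2) ^ 2 := by
      rw [hu2, mul_pow]
      have := mul_le_mul_of_nonneg_right hlogd (show (0 : ℝ) ≤ (d : ℝ) ^ 3 by positivity)
      calc ε' * Real.log d * (d : ℝ) ^ 3 ≤ κ ^ 2 * d * (d : ℝ) ^ 3 := this
        _ = κ ^ 2 * ((d : ℝ) ^ 2) ^ 2 := by ring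
    exact le_of_sq_le_sq h5 (by positivity)
  obtain ⟨l, hl⟩ : ∃ l, l = σ * u / (2 * Cm * η * d) := ⟨_, rfl⟩
  have hl0 : 0 ≤ l := by rw [hl]; positivity
  have hl4 : l ≤ 1 / 4 := by
    rw [hl, div_le_div_iff₀ (by positivity) (by norm_num)]
    have h5 : σ * u ≤ σ * (κ * (d : ℝ) ^ 2) := mul_le_mul_of_nonneg_left huκ hσ.le
    have h6 : σ * (κ * (d : ℝ) ^ 2) = (σ * d) * (κ * d) := by ring
    have h7 : (σ * d) * (κ * d) ≤ s2 * (κ * d) := mul_le_mul_of_nonneg_right hσ2 (by positivity)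
    have h8 : s2 * (κ * d) = Cm * η * d / 2 := by
      rw [hκ]
      field_simp
    linarith
  have hBd : (B : ℝ) ≤ d := hB.trans (by nlinarith)
  have hje : ∀ j ∈ Finset.Icc 1 B, 0 < σ * j ∧ σ * j ≤ s2 := by
    intro j hj
    obtain ⟨hj1, hj2⟩ := Finset.mem_Icc.1 hj
    have hj0 : (0 : ℝ) < j := by exact_mod_cast hj1
    refine ⟨mul_pos hσ hj0, ?_⟩
    have : (j : ℝ) ≤ d := le_trans (by exact_mod_cast hj2) hBd
    exact (mul_le_mul_of_nonneg_left this hσ.le).trans hσ2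
  -- the moment generating functions
  have hm : ∀ j ∈ Finset.Icc 1 B, ∀ s : ℝ, |s| ≤ l * σ →
      Integrable (fun x => Real.exp (s * ph σ j x)) lap ∧
        (∫ x, Real.exp (s * ph σ j x) ∂lap) ≤ Real.exp (Cm * l ^ 2) := by
    intro j hj s hs
    obtain ⟨hj1, hj2⟩ := hje j hj
    have hj0 : (0 : ℝ) < j := by exact_mod_cast (Finset.mem_Icc.1 hj).1
    have h5 : |s * j| ≤ σ * j / 4 := by
      rw [abs_mul, abs_of_pos hj0]
      have : |s| * j ≤ l * σ * j := mul_le_mul_of_nonneg_right hs hj0.le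
      have h6 : l * (σ * j) ≤ 1 / 4 * (σ * j) := mul_le_mul_of_nonneg_right hl4 hj1.le
      linarith
    obtain ⟨h6, h7⟩ := (hmgf (σ * j) (s * j) hj1 hj2 h5).2
    have e : ∀ x, s * ph σ j x =
        s * j * (|(Tq (σ * j) x : ℝ)| - ∫ y, |(Tq (σ * j) y : ℝ)| ∂lap) := by
      intro x
      rw [ph]
      ring
    simp only [e]
    refine ⟨h6, h7.trans ?_⟩
    apply Real.exp_le_exp.2
    have h8 : (s * j) ^ 2 ≤ (l * (σ * j)) ^ 2 := by
      rw [← sq_abs (s * j)]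
      apply pow_le_pow_left₀ (abs_nonneg _)
      rw [abs_mul, abs_of_pos hj0]
      have : |s| * j ≤ l * σ * j := mul_le_mul_of_nonneg_right hs hj0.le
      linarith
    rw [div_le_iff₀ (by positivity)]
    calc Cm * (s * j) ^ 2 ≤ Cm * (l * (σ * j)) ^ 2 := mul_le_mul_of_nonneg_left h8 hCm.le
      _ = Cm * l ^ 2 * (σ * j) ^ 2 := by ring
  have hlσ : 0 ≤ l * σ := mul_nonneg hl0 hσ.le
  have hch := h2 (Finset.Icc 1 B) (ph σ) (fun _ => Cm * l ^ 2) (l * σ) u hlσ ?_ ?_ ?_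
  · have hset : {ω : ℕ → ℝ | Real.sqrt (ε' * Real.log d) * (d : ℝ) ^ (3 / 2 : ℝ) ≤
        |(sX σ ω B : ℝ) - m1 B σ|} = {ω | u ≤ |∑ j ∈ Finset.Icc 1 B, ph σ j (ω j)|} := by
      ext ω
      rw [Set.mem_ofPred_eq, Set.mem_ofPred_eq, sub_eq h3 σ hσ, hu]
    rw [hset]
    refine hch.trans ?_
    rw [Finset.sum_const, Nat.card_Icc, Nat.add_sub_cancel, nsmul_eq_mul]
    have h5 : -(l * σ * u) + (B : ℝ) * (Cm * l ^ 2) ≤ -((A + 1) * Real.log d) := by
      have h6 : (B : ℝ) * (Cm * l ^ 2) ≤ η * d * (Cm * l ^ 2) :=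
        mul_le_mul_of_nonneg_right hB (by positivity)
      have h7 : -(l * σ * u) + η * d * (Cm * l ^ 2) = -(σ ^ 2 * u ^ 2 / (4 * Cm * η * d)) := by
        rw [hl]
        field_simp
        ring
      have h8 : (A + 1) * Real.log d ≤ σ ^ 2 * u ^ 2 / (4 * Cm * η * d) := by
        rw [le_div_iff₀ (by positivity), hu2]
        have h9 : s1 ^ 2 ≤ (σ * d) ^ 2 := pow_le_pow_left₀ hs1.le hσ1 2
        have h10 : η * (4 * Cm * (A + 1)) * (Real.log d * d) ≤ s1 ^ 2 * ε' * (Real.log d * d) :=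
          mul_le_mul_of_nonneg_right hηA (by positivity)
        have h11 : s1 ^ 2 * (ε' * (Real.log d * d)) ≤ (σ * d) ^ 2 * (ε' * (Real.log d * d)) :=
          mul_le_mul_of_nonneg_right h9 (by positivity)
        calc (A + 1) * Real.log d * (4 * Cm * η * d)
            = η * (4 * Cm * (A + 1)) * (Real.log d * d) := by ring
          _ ≤ s1 ^ 2 * ε' * (Real.log d * d) := h10
          _ = s1 ^ 2 * (ε' * (Real.log d * d)) := by ring
          _ ≤ (σ * d) ^ 2 * (ε' * (Real.log d * d)) := h11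
          _ = σ ^ 2 * (ε' * Real.log d * (d : ℝ) ^ 3) := by ring
      linarith
    have h6 : Real.exp (-((A + 1) * Real.log d)) = (d : ℝ) ^ (-A) * (d : ℝ)⁻¹ := by
      rw [show -((A + 1) * Real.log d) = Real.log d * (-A + -1) by ring,
        ← Real.rpow_def_of_pos hdpos, Real.rpow_add hdpos, Real.rpow_neg_one]
    calc 2 * Real.exp (-(l * σ * u) + (B : ℝ) * (Cm * l ^ 2))
        ≤ 2 * Real.exp (-((A + 1) * Real.log d)) :=
          mul_le_mul_of_nonneg_left (Real.exp_le_exp.2 h5) (by norm_num)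
      _ = (d : ℝ) ^ (-A) * (2 * (d : ℝ)⁻¹) := by rw [h6]; ring
      _ ≤ (d : ℝ) ^ (-A) * 1 := by
          apply mul_le_mul_of_nonneg_left _ (Real.rpow_nonneg hdpos.le _)
          rw [← div_eq_mul_inv, div_le_one hdpos]
          exact hd2'
      _ = (d : ℝ) ^ (-A) := mul_one _
  · intro j hj
    have hmeas : Measurable fun y : ℝ => (Tq (σ * j) y : ℝ) :=
      (measurable_from_top (f := fun z : ℤ => (z : ℝ))).comp (h4 _ (hje j hj).1).2.2.2.1
    have : Measurable fun y : ℝ => |(Tq (σ * j) y : ℝ)| := hmeas.abs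
    exact (this.sub_const _).const_mul _
  · intro j hj
    refine ⟨(hm j hj (l * σ) (by rw [abs_of_nonneg hlσ])).1, ?_⟩
    have := (hm j hj (-(l * σ)) (by rw [abs_neg, abs_of_nonneg hlσ])).1
    simpa only [neg_mul] using this
  · intro j hj
    refine ⟨(hm j hj (l * σ) (by rw [abs_of_nonneg hlσ])).2, ?_⟩
    have := (hm j hj (-(l * σ)) (by rw [abs_neg, abs_of_nonneg hlσ])).2
    simpa only [neg_mul] using this

end Pool.Agent.H505.GP174.Typs
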